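import Pool.Agent.L7h4.OC.Stm

/-!
# Project OC (helper4): digits, boxes, linear independence
-/

set_option autoImplicit false

open Finset Filter Topology

namespace Pool.Agent.L7h4.OC

/-- the value of the word `d 0, …, d (m-1)` -/
def val (b : ℕ) (d : ℕ → ℕ) : ℕ → ℕ
  | 0 => 0
  | m + 1 => b * val b d m + d m

theorem val_lt {b : ℕ} {d : ℕ → ℕ} (hd : ∀ t, d t < b) (m : ℕ) : val b d m < b ^ m := by
  induction m with
  | zero => simp [val]
  | succ m ih =>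
    rw [val, pow_succ]
    have := hd m
    nlinarith

theorem floor_mod (b : ℕ) (z : ℝ) (m : ℕ) :
    ⌊z * (b : ℝ) ^ (m + 1)⌋ % (b : ℤ) = ⌊Int.fract z * (b : ℝ) ^ (m + 1)⌋ % (b : ℤ) := by
  have h1 : z * (b : ℝ) ^ (m + 1) = Int.fract z * (b : ℝ) ^ (m + 1) +
      ((⌊z⌋ * (b : ℤ) ^ m * b : ℤ) : ℝ) := by
    conv_lhs => rw [← Int.floor_add_fract z]
    push_cast
    ring
  rw [h1, Int.floor_add_intCast, Int.add_mul_emod_self_right]

theorem digits_iff {b : ℕ} (hb : 1 ≤ b) {d : ℕ → ℕ} (hd : ∀ t, d t < b) (z : ℝ) (m : ℕ) :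
    (∀ t < m, ⌊z * (b : ℝ) ^ (t + 1)⌋ % (b : ℤ) = (d t : ℤ)) ↔
      ⌊Int.fract z * (b : ℝ) ^ m⌋ = (val b d m : ℤ) := by
  induction m with
  | zero =>
    simp only [Nat.not_lt_zero, false_imp_iff, implies_true, pow_zero, mul_one, true_iff, val]
    rw [Int.floor_fract]
    rfl
  | succ m ih =>
    have h1 : (∀ t < m + 1, ⌊z * (b : ℝ) ^ (t + 1)⌋ % (b : ℤ) = (d t : ℤ)) ↔
        ((∀ t < m, ⌊z * (b : ℝ) ^ (t + 1)⌋ % (b : ℤ) = (d t : ℤ)) ∧
          ⌊z * (b : ℝ) ^ (m + 1)⌋ % (b : ℤ) = (d m : ℤ)) := by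
      constructor
      · intro h
        exact ⟨fun t ht => h t (by omega), h m (by omega)⟩
      · rintro ⟨h2, h3⟩ t ht
        rcases Nat.lt_succ_iff_lt_or_eq.1 ht with h4 | rfl
        · exact h2 t h4
        · exact h3
    rw [h1, ih, floor_mod]
    have hbZ : (0 : ℤ) < b := by exact_mod_cast hb
    have hbR : (b : ℝ) ≠ 0 := by exact_mod_cast (by omega : b ≠ 0)
    have h2 : ⌊Int.fract z * (b : ℝ) ^ m⌋ = ⌊Int.fract z * (b : ℝ) ^ (m + 1)⌋ / (b : ℤ) := by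
      have h3 : Int.fract z * (b : ℝ) ^ m = Int.fract z * (b : ℝ) ^ (m + 1) / (b : ℝ) := by
        rw [pow_succ]
        field_simp
      rw [h3, Int.floor_div_natCast]
    rw [h2]
    set F : ℤ := ⌊Int.fract z * (b : ℝ) ^ (m + 1)⌋ with hF
    have hdm : (d m : ℤ) < b := by exact_mod_cast hd m
    have hdm0 : (0 : ℤ) ≤ d m := Int.natCast_nonneg _
    have h5 : ((val b d (m + 1) : ℕ) : ℤ) = b * (val b d m : ℤ) + d m := by
      rw [val]
      push_cast
      ring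
    rw [h5]
    constructor
    · rintro ⟨h6, h7⟩
      have := Int.mul_ediv_add_emod F b
      rw [h6, h7] at this
      exact this.symm
    · intro h6
      rw [h6]
      constructor
      · rw [Int.add_comm, Int.add_mul_ediv_left _ _ hbZ.ne', Int.ediv_eq_zero_of_lt hdm0 hdm, zero_add]
      · rw [Int.add_comm, Int.add_mul_emod_self_left]
        exact Int.emod_eq_of_lt hdm0 hdm

theorem floor_iff_box {b : ℕ} (hb : 1 ≤ b) (z : ℝ) (m v : ℕ) :
    ⌊Int.fract z * (b : ℝ) ^ m⌋ = (v : ℤ) ↔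
      (v : ℝ) / (b : ℝ) ^ m ≤ Int.fract z ∧ Int.fract z < ((v : ℝ) + 1) / (b : ℝ) ^ m := by
  have hbp : (0 : ℝ) < (b : ℝ) ^ m := by
    have : (0 : ℝ) < b := by exact_mod_cast hb
    positivity
  rw [Int.floor_eq_iff, div_le_iff₀ hbp, lt_div_iff₀ hbp]
  push_cast
  rfl

theorem dg_iff {b : ℕ} (hb : 1 ≤ b) {w : ℕ} (hw : w < b) (z : ℝ) :
    Dg b w z ↔ ⌊z * (b : ℝ)⌋ % (b : ℤ) = (w : ℤ) := by
  have h1 := digits_iff hb (d := fun _ => w) (fun _ => hw) z 1
  have h2 := floor_iff_box hb z 1 (val b (fun _ => w) 1)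
  have h3 : val b (fun _ => w) 1 = w := by simp [val]
  rw [h3] at h2 h1
  rw [pow_one] at h2
  have h4 : (∀ t < 1, ⌊z * (b : ℝ) ^ (t + 1)⌋ % (b : ℤ) = (w : ℤ)) ↔
      ⌊z * (b : ℝ)⌋ % (b : ℤ) = (w : ℤ) := by
    constructor
    · intro h
      have := h 0 (by norm_num)
      simpa using this
    · intro h t ht
      obtain rfl : t = 0 := by omega
      simpa using h
  rw [← h4, h1, pow_one]
  exact h2.symm

/-- shift of the index -/
theorem card_shift (P Q : ℕ → Prop) [DecidablePred P] [DecidablePred Q] (N : ℕ)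
    (h : ∀ i, P (i + 1) ↔ Q i) :
    ((Icc 1 N).filter P).card = ((range N).filter Q).card := by
  symm
  refine card_bij (fun i _ => i + 1) ?_ ?_ ?_
  · intro i hi
    rw [mem_filter, mem_range] at hi
    rw [mem_filter, mem_Icc]
    exact ⟨⟨by omega, by omega⟩, (h i).2 hi.2⟩
  · intro i _ j _ hij
    omega
  · intro i hi
    rw [mem_filter, mem_Icc] at hi
    refine ⟨i - 1, ?_, by omega⟩
    rw [mem_filter, mem_range]
    refine ⟨by omega, (h (i - 1)).1 ?_⟩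
    have : i - 1 + 1 = i := by omega
    rw [this]
    exact hi.2

/-- linear independence with `1` is not changed by the substitutions -/
theorem li_trans {n : ℕ} {x : Fin n → ℝ} (hx : LinearIndependent ℚ (Matrix.vecCons (1 : ℝ) x))
    (a r : Fin n → ℚ) (ha : ∀ j, a j ≠ 0) :
    LinearIndependent ℚ (Matrix.vecCons (1 : ℝ) fun j => (a j : ℝ) * x j + (r j : ℝ)) := by
  rw [Fintype.linearIndependent_iff] at hx ⊢
  intro g hg
  rw [Fin.sum_univ_succ] at hg
  simp only [Matrix.cons_val_zero, Matrix.cons_val_succ, Rat.smul_def] at hg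
  have h1 := hx (Fin.cons (g 0 + ∑ j, g (Fin.succ j) * r j) fun j => g (Fin.succ j) * a j) (by
    rw [Fin.sum_univ_succ]
    simp only [Matrix.cons_val_zero, Matrix.cons_val_succ, Rat.smul_def, Fin.cons_zero,
      Fin.cons_succ]
    push_cast
    rw [← hg]
    have h2 : ∑ j : Fin n, (g (Fin.succ j) : ℝ) * ((a j : ℝ) * x j + (r j : ℝ)) =
        ∑ j : Fin n, (g (Fin.succ j) : ℝ) * (a j : ℝ) * x j +
          ∑ j : Fin n, (g (Fin.succ j) : ℝ) * (r j : ℝ) := by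
      rw [← sum_add_distrib]
      exact sum_congr rfl fun j _ => by ring
    rw [h2]
    ring)
  have h2 : ∀ j : Fin n, g (Fin.succ j) = 0 := by
    intro j
    have h3 := h1 (Fin.succ j)
    rw [Fin.cons_succ] at h3
    exact (mul_eq_zero.1 h3).resolve_right (ha j)
  intro i
  refine Fin.cases ?_ h2 i
  have h3 := h1 0
  rw [Fin.cons_zero] at h3
  have h4 : ∑ j, g (Fin.succ j) * r j = 0 := sum_eq_zero fun j _ => by rw [h2 j, zero_mul]
  rw [h4, add_zero] at h3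
  exact h3

/-- splitting off the powers of `b` -/
theorem split_pow {b : ℕ} (hb : 2 ≤ b) (h : ℤ) : ∃ (o : ℕ) (h' : ℤ), h = (b : ℤ) ^ o * h' ∧
    (h' = 0 ∨ ¬ (b : ℤ) ∣ h') ∧ (h ≠ 0 → h' ≠ 0) := by
  by_cases h0 : h = 0
  · exact ⟨0, 0, by simp [h0], Or.inl rfl, fun h1 => absurd h0 h1⟩
  · have hfin : FiniteMultiplicity (b : ℤ) h := by
      rw [Int.finiteMultiplicity_iff]
      refine ⟨?_, h0⟩
      rw [Int.natAbs_natCast]
      omega
    obtain ⟨c, hc, hc2⟩ := hfin.exists_eq_pow_mul_and_not_dvd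
    refine ⟨_, c, hc, Or.inr hc2, fun _ hc0 => hc2 (by rw [hc0]; exact dvd_zero _)⟩

end Pool.Agent.L7h4.OC
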