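import Pool.Agent.L7h4.OC.Ex
import Pool.Agent.L7h4.OC.Dig

/-!
# Project OC (helper4): the theorem
-/

set_option autoImplicit false

open Finset Filter Topology

namespace Pool.Agent.L7h4.OC

section

variable {n : ℕ}

/-- the number of the places `1 ≤ i ≤ N` with the digit column `w` -/
noncomputable def column (b : ℕ) (w : Fin n → Fin b) (x : Fin n → ℝ) (N : ℕ) : ℕ :=
  ((Icc 1 N).filter fun i : ℕ =>
    ∀ j, ⌊x j * (b : ℝ) ^ i⌋ % (b : ℤ) = (((w j : Fin b) : ℕ) : ℤ)).card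

/-- the column `w` has a deficiency of at least `τ` -/
def Deficient (b : ℕ) (w : Fin n → Fin b) (τ : ℝ) (x : Fin n → ℝ) : Prop :=
  ∃ᶠ N : ℕ in atTop, (column b w x N : ℝ) ≤ (1 / (b : ℝ) ^ n - τ) * N

/-- the column `w` has an excess of at least `τ` -/
def Abundant (b : ℕ) (w : Fin n → Fin b) (τ : ℝ) (x : Fin n → ℝ) : Prop :=
  ∃ᶠ N : ℕ in atTop, (1 / (b : ℝ) ^ n + τ) * N ≤ (column b w x N : ℝ)

/-- the upper density of the column `w` is at most `b ^ (-n)` -/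
def UpperLe (b : ℕ) (w : Fin n → Fin b) (x : Fin n → ℝ) : Prop :=
  ∀ ε : ℝ, 0 < ε → ∀ᶠ N : ℕ in atTop, (column b w x N : ℝ) ≤ (1 / (b : ℝ) ^ n + ε) * N

/-- the lower density of the column `w` is at least `b ^ (-n)` -/
def LowerGe (b : ℕ) (w : Fin n → Fin b) (x : Fin n → ℝ) : Prop :=
  ∀ ε : ℝ, 0 < ε → ∀ᶠ N : ℕ in atTop, (1 / (b : ℝ) ^ n - ε) * N ≤ (column b w x N : ℝ)

/-- normal up to `η` -/
def NormalUpTo (b : ℕ) (η : ℝ) (x : Fin n → ℝ) : Prop :=
  ∀ᶠ N : ℕ in atTop, ∀ u v : Fin n → ℝ, (∀ j, 0 ≤ u j ∧ u j < v j ∧ v j ≤ 1) →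
    |(((range N).filter fun i : ℕ => ∀ j, u j ≤ Int.fract (x j * (b : ℝ) ^ i) ∧
      Int.fract (x j * (b : ℝ) ^ i) < v j).card : ℝ) - N * ∏ j, (v j - u j)| ≤ η * N

/-- normal, as in the problem -/
def IsNormal (b : ℕ) (α : Fin n → ℝ) : Prop :=
  ∀ (m : ℕ), 1 ≤ m → ∀ D : Fin n → Fin m → Fin b,
    Tendsto
      (fun N : ℕ =>
        (((Finset.filter
            (fun i : ℕ => ∀ j : Fin n, ∀ t : Fin m,
              Int.floor (α j * (b : ℝ) ^ (i + (t : ℕ))) % (b : ℤ) = (((D j t : ℕ)) : ℤ))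
            (Finset.Icc 1 N)).card : ℝ) / (N : ℝ)))
      atTop (nhds (1 / (b : ℝ) ^ (m * n)))

theorem column_eq {b : ℕ} (hb : 1 ≤ b) (w : Fin n → Fin b) (x : Fin n → ℝ) (N : ℕ) :
    column b w x N = cnt b (fun j => (w j : ℕ)) x N := by
  classical
  unfold column cnt
  rw [card_shift _ (fun i : ℕ => ∀ j, Dg b (w j) (x j * (b : ℝ) ^ i)) N]
  intro i
  refine forall_congr' fun j => ?_
  rw [dg_iff hb (w j).2]
  have e : x j * (b : ℝ) ^ (i + 1) = x j * (b : ℝ) ^ i * b := by rw [pow_succ]; ring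
  rw [e]

/-- digit matrices are boxes -/
theorem matrix_box {b : ℕ} (hb : 1 ≤ b) {m : ℕ} (D : Fin n → Fin m → Fin b) (x : Fin n → ℝ) :
    ∃ u v : Fin n → ℝ, (∀ j, 0 ≤ u j ∧ u j < v j ∧ v j ≤ 1) ∧
      ∏ j, (v j - u j) = 1 / (b : ℝ) ^ (m * n) ∧ ∀ N : ℕ,
      (Finset.filter
            (fun i : ℕ => ∀ j : Fin n, ∀ t : Fin m,
              Int.floor (x j * (b : ℝ) ^ (i + (t : ℕ))) % (b : ℤ) = (((D j t : ℕ)) : ℤ))
            (Finset.Icc 1 N)).card =
      ((range N).filter fun i : ℕ => ∀ j, u j ≤ Int.fract (x j * (b : ℝ) ^ i) ∧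
        Int.fract (x j * (b : ℝ) ^ i) < v j).card := by
  classical
  let d : Fin n → ℕ → ℕ := fun j t => if h : t < m then (D j ⟨t, h⟩ : ℕ) else 0
  have hd : ∀ j t, d j t < b := by
    intro j t
    by_cases h : t < m
    · simp only [d, dif_pos h]
      exact (D j ⟨t, h⟩).2
    · simp only [d, dif_neg h]
      exact hb
  have hbp : (0 : ℝ) < (b : ℝ) ^ m := by
    have : (0 : ℝ) < b := by exact_mod_cast hb
    positivity
  refine ⟨fun j => (val b (d j) m : ℝ) / (b : ℝ) ^ m,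
    fun j => ((val b (d j) m : ℝ) + 1) / (b : ℝ) ^ m, fun j => ⟨by positivity, ?_, ?_⟩, ?_, ?_⟩
  · exact div_lt_div_of_pos_right (by linarith) hbp
  · rw [div_le_one hbp]
    have h1 := val_lt (hd j) m
    have h2 : val b (d j) m + 1 ≤ b ^ m := h1
    exact_mod_cast h2
  · have h1 : ∀ j : Fin n, ((val b (d j) m : ℝ) + 1) / (b : ℝ) ^ m -
        (val b (d j) m : ℝ) / (b : ℝ) ^ m = 1 / (b : ℝ) ^ m := fun j => by ring
    simp only [h1, prod_const, card_univ, Fintype.card_fin]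
    rw [one_div, inv_pow, ← pow_mul, one_div]
  · intro N
    refine card_shift _ _ N fun i => ?_
    refine forall_congr' fun j => ?_
    rw [← floor_iff_box hb, ← digits_iff hb (hd j)]
    constructor
    · intro h t ht
      have h1 := h ⟨t, ht⟩
      have e : x j * (b : ℝ) ^ (i + 1 + t) = x j * (b : ℝ) ^ i * (b : ℝ) ^ (t + 1) := by
        rw [mul_assoc, ← pow_add]
        congr 2
        ring
      simp only at h1
      rw [e] at h1
      rw [h1]
      simp only [d, dif_pos ht]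
    · intro h t
      have h1 := h t.1 t.2
      have e : x j * (b : ℝ) ^ (i + 1 + (t : ℕ)) = x j * (b : ℝ) ^ i * (b : ℝ) ^ ((t : ℕ) + 1) := by
        rw [mul_assoc, ← pow_add]
        congr 2
        ring
      rw [e, h1]
      simp only [d, dif_pos t.2]

theorem normal_of_upTo {b : ℕ} (hb : 1 ≤ b) {x : Fin n → ℝ} (h : ∀ η : ℝ, 0 < η → NormalUpTo b η x) :
    IsNormal b x := by
  intro m _ D
  obtain ⟨u, v, huv, hprod, hcard⟩ := matrix_box hb D x
  rw [Metric.tendsto_atTop]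
  intro ε hε
  obtain ⟨N₀, hN₀⟩ := eventually_atTop.1 (h (ε / 2) (half_pos hε))
  refine ⟨max N₀ 1, fun N hN => ?_⟩
  have h1 := hN₀ N ((le_max_left _ _).trans hN) u v huv
  have hN1 : (1 : ℝ) ≤ N := by exact_mod_cast (le_max_right _ _).trans hN
  rw [hprod] at h1
  rw [hcard, Real.dist_eq]
  set A : ℝ := (((range N).filter fun i : ℕ => ∀ j, u j ≤ Int.fract (x j * (b : ℝ) ^ i) ∧
        Int.fract (x j * (b : ℝ) ^ i) < v j).card : ℝ) with hA
  have h2 : A / N - 1 / (b : ℝ) ^ (m * n) = (A - N * (1 / (b : ℝ) ^ (m * n))) / N := by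
    field_simp
  rw [h2, abs_div, abs_of_pos (by linarith : (0 : ℝ) < N), div_lt_iff₀ (by linarith)]
  nlinarith

theorem ge_le_of_normal {b : ℕ} (w : Fin n → Fin b) {x : Fin n → ℝ} (h : IsNormal b x) :
    LowerGe b w x ∧ UpperLe b w x := by
  have key : ∀ ε : ℝ, 0 < ε → ∀ᶠ N : ℕ in atTop, (1 / (b : ℝ) ^ n - ε) * N ≤ (column b w x N : ℝ) ∧
      (column b w x N : ℝ) ≤ (1 / (b : ℝ) ^ n + ε) * N := by
    intro ε hε
    have h1 := h 1 le_rfl (fun j _ => w j)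
    rw [Metric.tendsto_atTop] at h1
    obtain ⟨N₀, hN₀⟩ := h1 ε hε
    filter_upwards [eventually_ge_atTop N₀, eventually_ge_atTop 1] with N hN hN1
    have h2 := hN₀ N hN
    have hN1' : (1 : ℝ) ≤ N := by exact_mod_cast hN1
    have h3 : (Finset.filter
              (fun i : ℕ => ∀ j : Fin n, ∀ t : Fin 1,
                Int.floor (x j * (b : ℝ) ^ (i + (t : ℕ))) % (b : ℤ) = (((w j : ℕ)) : ℤ))
              (Finset.Icc 1 N)).card = column b w x N := by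
      unfold column
      congr 1
      refine filter_congr fun i _ => ?_
      constructor
      · intro h j
        have := h j 0
        simpa using this
      · intro h j t
        have ht : (t : ℕ) = 0 := by omega
        rw [ht, add_zero]
        exact h j
    rw [h3, Real.dist_eq, one_mul] at h2
    have h4 := abs_lt.1 h2
    constructor
    · have h5 : 1 / (b : ℝ) ^ n - ε < (column b w x N : ℝ) / N := by linarith [h4.1]
      rw [lt_div_iff₀ (by linarith)] at h5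
      exact h5.le
    · have h5 : (column b w x N : ℝ) / N < 1 / (b : ℝ) ^ n + ε := by linarith [h4.2]
      rw [div_lt_iff₀ (by linarith)] at h5
      exact h5.le
  exact ⟨fun ε hε => (key ε hε).mono fun N hN => hN.1, fun ε hε => (key ε hε).mono fun N hN => hN.2⟩

end

open Classical in
/-- (1) -/
theorem main1 (hEX : S_EX2) (hWB : S_WB) (b n : ℕ) (hb : 2 ≤ b) (w : Fin n → Fin b) (η : ℝ)
    (hη : 0 < η) : ∃ (c : ℝ) (k₀ : ℕ) (O : Finset (Fin n → ℕ)), 0 < c ∧ 1 ≤ k₀ ∧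
      ∀ x : Fin n → ℝ, ¬ NormalUpTo b η x → ∃ o ∈ O, ∀ k, k₀ ≤ k →
        c / k * ((b : ℝ) ^ k - 1) ^ n ≤
          (((Fintype.piFinset fun _ : Fin n => range (b ^ k - 1)).filter fun p : Fin n → ℕ =>
            Deficient b w (c / k)
              (fun j => (b : ℝ) ^ (o j) * x j + (p j : ℝ) / ((b : ℝ) ^ k - 1))).card : ℝ) ∧
        c / k * ((b : ℝ) ^ k - 1) ^ n ≤
          (((Fintype.piFinset fun _ : Fin n => range (b ^ k - 1)).filter fun p : Fin n → ℕ =>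
            Abundant b w (c / k)
              (fun j => (b : ℝ) ^ (o j) * x j + (p j : ℝ) / ((b : ℝ) ^ k - 1))).card : ℝ) := by
  obtain ⟨H, δ, hδ, hH0, hW⟩ := hWB b n η hη
  choose o h' hho hhd hh0 using fun (h : Fin n → ℤ) (j : Fin n) => split_pow hb (h j)
  have hb1 : 1 ≤ b := by omega
  have hEXh : ∀ h ∈ H, ∃ c : ℝ, 0 < c ∧ ∃ k₀ : ℕ, 1 ≤ k₀ ∧ ∀ k, k₀ ≤ k → ∀ y : Fin n → ℝ,
      (∃ᶠ N : ℕ in atTop, δ * N ≤ ‖∑ i ∈ range N, ex (∑ j, (h' h j : ℝ) * y j * (b : ℝ) ^ i)‖) →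
      ∀ σ : ℝ, (σ = 1 ∨ σ = -1) →
      c / k * ((b ^ k - 1 : ℕ) : ℝ) ^ n ≤
        (((Fintype.piFinset fun _ : Fin n => range (b ^ k - 1)).filter fun p : Fin n → ℕ =>
          ∃ᶠ N : ℕ in atTop,
            σ * ((cnt b (fun j => (w j : ℕ)) (fun j => y j + (p j : ℝ) / ((b ^ k - 1 : ℕ) : ℝ)) N : ℝ) -
              N / (b : ℝ) ^ n) ≤ -(c / k * N)).card : ℝ) := by
    intro h hh
    refine hEX b n (fun j => (w j : ℕ)) (h' h) hb (fun j => (w j).2) ?_ (hhd h) δ hδ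
    intro h0
    obtain ⟨j, hj⟩ : ∃ j, h j ≠ 0 := by
      by_contra hcon
      push Not at hcon
      exact hH0 h hh (funext hcon)
    exact hh0 h j hj (congrFun h0 j)
  choose! c hc k₀ hk₀ hmain using hEXh
  -- common constants
  obtain ⟨c₀, hc₀, hc₀le⟩ : ∃ c₀ : ℝ, 0 < c₀ ∧ ∀ h ∈ H, c₀ ≤ c h := by
    rcases H.eq_empty_or_nonempty with he | hne
    · exact ⟨1, one_pos, fun h hh => by rw [he] at hh; exact absurd hh (notMem_empty h)⟩
    · obtain ⟨h₀, hh₀, hmin⟩ := H.exists_min_image c hne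
      exact ⟨c h₀, hc h₀ hh₀, hmin⟩
  refine ⟨c₀, H.sup k₀ + 1, H.image o, hc₀, by omega, fun x hx => ?_⟩
  -- a large exponential sum at infinitely many stages
  have hfr : ∃ h ∈ H, ∃ᶠ N : ℕ in atTop,
      δ * N ≤ ‖∑ i ∈ range N, ex (∑ j, (h j : ℝ) * x j * (b : ℝ) ^ i)‖ := by
    by_contra hcon
    push Not at hcon
    apply hx
    have h1 : ∀ᶠ N : ℕ in atTop, ∀ h ∈ H,
        ‖∑ i ∈ range N, ex (∑ j, (h j : ℝ) * x j * (b : ℝ) ^ i)‖ < δ * N := by
      rw [Filter.eventually_all_finset]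
      intro h hh
      exact hcon h hh
    filter_upwards [h1] with N hN u v huv
    exact hW x N (fun h hh => (hN h hh).le) u v huv
  obtain ⟨h, hh, hfr⟩ := hfr
  refine ⟨o h, mem_image_of_mem o hh, fun k hk => ?_⟩
  have hk0 : k₀ h ≤ k := (Finset.le_sup (f := k₀) hh).trans (by omega)
  have hk1 : 1 ≤ k := by omega
  have hkR : (0 : ℝ) < k := by exact_mod_cast hk1
  have hbk : 1 ≤ b ^ k := Nat.one_le_pow _ _ (by omega)
  have hM : ((b ^ k - 1 : ℕ) : ℝ) = (b : ℝ) ^ k - 1 := by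
    rw [Nat.cast_sub hbk]
    push_cast
    ring
  have h1 := hmain h hh k hk0 (fun j => (b : ℝ) ^ (o h j) * x j) (by
    refine hfr.mono fun N hN => hN.trans (le_of_eq ?_)
    congr 1
    refine sum_congr rfl fun i _ => ?_
    congr 1
    refine sum_congr rfl fun j _ => ?_
    have h2 : (h j : ℝ) = (b : ℝ) ^ (o h j) * (h' h j : ℝ) := by
      have := congrArg (fun z : ℤ => (z : ℝ)) (hho h j)
      rw [this]
      push_cast
      ring
    rw [h2]
    ring)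
  rw [hM] at h1
  have hM0 : (0 : ℝ) ≤ (b : ℝ) ^ k - 1 := by
    rw [← hM]
    exact Nat.cast_nonneg _
  have hck : c₀ / k ≤ c h / k := div_le_div_of_nonneg_right (hc₀le h hh) hkR.le
  have h2 := h1 1 (Or.inl rfl)
  have h3 := h1 (-1) (Or.inr rfl)
  constructor
  · refine (mul_le_mul_of_nonneg_right hck (pow_nonneg hM0 n)).trans (h2.trans ?_)
    refine Nat.cast_le.2 (card_le_card ?_)
    intro p hp
    rw [mem_filter] at hp ⊢
    refine ⟨hp.1, hp.2.mono fun N hN => ?_⟩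
    rw [column_eq hb1]
    have h4 : c₀ / k * N ≤ c h / k * N := mul_le_mul_of_nonneg_right hck (Nat.cast_nonneg _)
    have h5 : (1 / (b : ℝ) ^ n - c₀ / k) * N = N / (b : ℝ) ^ n - c₀ / k * N := by ring
    rw [h5]
    linarith
  · refine (mul_le_mul_of_nonneg_right hck (pow_nonneg hM0 n)).trans (h3.trans ?_)
    refine Nat.cast_le.2 (card_le_card ?_)
    intro p hp
    rw [mem_filter] at hp ⊢
    refine ⟨hp.1, hp.2.mono fun N hN => ?_⟩
    rw [column_eq hb1]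
    have h4 : c₀ / k * N ≤ c h / k * N := mul_le_mul_of_nonneg_right hck (Nat.cast_nonneg _)
    have h5 : (1 / (b : ℝ) ^ n + c₀ / k) * N = N / (b : ℝ) ^ n + c₀ / k * N := by ring
    rw [h5]
    linarith

/-- a deficient and an abundant tuple for every tuple which is not normal -/
theorem exists_of_not_normal (hEX : S_EX2) (hWB : S_WB) {b n : ℕ} (hb : 2 ≤ b) (w : Fin n → Fin b)
    {x : Fin n → ℝ} (hx : ¬ IsNormal b x) : ∃ (o : Fin n → ℕ) (r : Fin n → ℚ) (τ : ℝ), 0 < τ ∧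
      Deficient b w τ (fun j => (b : ℝ) ^ (o j) * x j + (r j : ℝ)) ∧
      ∃ r' : Fin n → ℚ, Abundant b w τ (fun j => (b : ℝ) ^ (o j) * x j + (r' j : ℝ)) := by
  classical
  obtain ⟨η, hη, hcon⟩ : ∃ η : ℝ, 0 < η ∧ ¬ NormalUpTo b η x := by
    by_contra h
    push Not at h
    exact hx (normal_of_upTo (by omega) h)
  obtain ⟨c, k₀, O, hc, hk₀, hmain⟩ := main1 hEX hWB b n hb w η hη
  obtain ⟨o, -, ho⟩ := hmain x hcon
  obtain ⟨h1, h1'⟩ := ho k₀ le_rfl
  have hkR : (0 : ℝ) < k₀ := by exact_mod_cast hk₀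
  have hbR : (2 : ℝ) ≤ b := by exact_mod_cast hb
  have hbk : (1 : ℝ) < (b : ℝ) ^ k₀ := one_lt_pow₀ (by linarith) (by omega)
  have h2 : 0 < c / k₀ * ((b : ℝ) ^ k₀ - 1) ^ n := by
    have : 0 < (b : ℝ) ^ k₀ - 1 := by linarith
    positivity
  obtain ⟨p, hp⟩ := card_pos.1 (Nat.cast_pos.1 (h2.trans_le h1))
  obtain ⟨p', hp'⟩ := card_pos.1 (Nat.cast_pos.1 (h2.trans_le h1'))
  have h4 := (mem_filter.1 hp).2
  have h4' := (mem_filter.1 hp').2
  have e : ∀ p : Fin n → ℕ, (fun j => (b : ℝ) ^ (o j) * x j +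
      (((p j : ℚ) / ((b : ℚ) ^ k₀ - 1) : ℚ) : ℝ)) =
      fun j => (b : ℝ) ^ (o j) * x j + (p j : ℝ) / ((b : ℝ) ^ k₀ - 1) := by
    intro p
    funext j
    push_cast
    rfl
  refine ⟨o, fun j => (p j : ℚ) / ((b : ℚ) ^ k₀ - 1), c / k₀, by positivity, ?_,
    fun j => (p' j : ℚ) / ((b : ℚ) ^ k₀ - 1), ?_⟩
  · rw [e]
    exact h4
  · rw [e]
    exact h4'

/-- the equivalence for a class of tuples which is stable under the substitutions -/
theorem main2 (hEX : S_EX2) (hWB : S_WB) (b n : ℕ) (hb : 2 ≤ b) (w : Fin n → Fin b)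
    (T : Set (Fin n → ℝ)) (hT : ∀ x ∈ T, ∀ (o : Fin n → ℕ) (r : Fin n → ℚ),
      (fun j => (b : ℝ) ^ (o j) * x j + (r j : ℝ)) ∈ T) :
    ((∀ x ∈ T, IsNormal b x) ↔ ∀ x ∈ T, LowerGe b w x) ∧
      ((∀ x ∈ T, IsNormal b x) ↔ ∀ x ∈ T, UpperLe b w x) := by
  classical
  refine ⟨⟨fun h x hx => (ge_le_of_normal w (h x hx)).1, fun h x hx => ?_⟩,
    ⟨fun h x hx => (ge_le_of_normal w (h x hx)).2, fun h x hx => ?_⟩⟩
  · by_contra hcon
    obtain ⟨o, r, τ, hτ, h4, -⟩ := exists_of_not_normal hEX hWB hb w hcon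
    have h6 := h _ (hT x hx o r) (τ / 2) (by positivity)
    obtain ⟨N, hN1, hN2, hN3⟩ := (h4.and_eventually (h6.and (eventually_ge_atTop 1))).exists
    have hN : (1 : ℝ) ≤ N := by exact_mod_cast hN3
    have h8 : (1 / (b : ℝ) ^ n - τ / 2) * N ≤ (1 / (b : ℝ) ^ n - τ) * N := hN2.trans hN1
    have h9 : 0 < τ * N := by positivity
    have h10 : (1 / (b : ℝ) ^ n - τ / 2) * N = (1 / (b : ℝ) ^ n - τ) * N + τ * N / 2 := by
      ring
    linarith
  · by_contra hcon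
    obtain ⟨o, -, τ, hτ, -, r, h4⟩ := exists_of_not_normal hEX hWB hb w hcon
    have h6 := h _ (hT x hx o r) (τ / 2) (by positivity)
    obtain ⟨N, hN1, hN2, hN3⟩ := (h4.and_eventually (h6.and (eventually_ge_atTop 1))).exists
    have hN : (1 : ℝ) ≤ N := by exact_mod_cast hN3
    have h8 : (1 / (b : ℝ) ^ n + τ) * N ≤ (1 / (b : ℝ) ^ n + τ / 2) * N := hN1.trans hN2
    have h9 : 0 < τ * N := by positivity
    have h10 : (1 / (b : ℝ) ^ n + τ) * N = (1 / (b : ℝ) ^ n + τ / 2) * N + τ * N / 2 := by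
      ring
    linarith

end Pool.Agent.L7h4.OC
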