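import Pool.Agent.L7h4.OC.Ga

/-!
# Project OC (helper4): the averages over the translates (AV)
-/

set_option autoImplicit false

open Finset Filter Topology

namespace Pool.Agent.L7h4.OC

/-- substitution in a sum over the residues -/
theorem sum_subst {M β : ℕ} (hM : 1 ≤ M) (hβ : Nat.Coprime β M) (G : ℤ → ℂ)
    (hG : ∀ z : ℤ, G (z % M) = G z) :
    ∑ q ∈ range M, G (q : ℤ) = ∑ q ∈ range M, G ((β : ℤ) * q) := by
  classical
  have himg : (range M).image (fun q => (β * q) % M) = range M := by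
    apply Finset.eq_of_subset_of_card_le
    · intro q hq
      obtain ⟨q', _, rfl⟩ := mem_image.1 hq
      exact mem_range.2 (Nat.mod_lt _ (by omega))
    · rw [card_image_of_injOn]
      intro q hq q' hq' heq
      rw [mem_coe, mem_range] at hq hq'
      have h1 : β * q ≡ β * q' [MOD M] := heq
      have h2 : q ≡ q' [MOD M] := Nat.ModEq.cancel_left_of_coprime (by rw [Nat.gcd_comm]; exact hβ) h1
      exact Nat.ModEq.eq_of_lt_of_lt h2 hq hq'
  have hinj : Set.InjOn (fun q => (β * q) % M) (range M : Set ℕ) := by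
    apply Finset.injOn_of_card_image_eq
    rw [himg]
  conv_lhs => rw [← himg]
  rw [sum_image hinj]
  refine sum_congr rfl fun q _ => ?_
  rw [← hG ((β : ℤ) * q)]
  push_cast
  rfl

theorem dvd_pow_sub_one (b k l : ℕ) (hbk : 1 ≤ b ^ k) :
    ∃ μ : ℤ, (b : ℤ) ^ (k * l) = 1 + ((b ^ k - 1 : ℕ) : ℤ) * μ := by
  have h1 : (b : ℤ) ^ k - 1 ∣ ((b : ℤ) ^ k) ^ l - 1 ^ l := sub_dvd_pow_sub_pow _ _ l
  obtain ⟨μ, hμ⟩ := h1
  refine ⟨μ, ?_⟩
  rw [one_pow, ← pow_mul] at hμ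
  have h2 : ((b ^ k - 1 : ℕ) : ℤ) = (b : ℤ) ^ k - 1 := by
    rw [Nat.cast_sub hbk]
    push_cast
    ring
  rw [h2, ← hμ]
  ring

open Classical in
/-- one coordinate of the averages -/
theorem factor_eq {b k : ℕ} (hb : 2 ≤ b) (hk : 1 ≤ k) (w : ℕ) (h : ℤ) (c i e l : ℕ)
    (he : e + i = k * l) (y : ℝ) :
    (∑ q ∈ range (b ^ k - 1), if Dg b w ((y + (q : ℝ) / ((b ^ k - 1 : ℕ) : ℝ)) * (b : ℝ) ^ i) then
      ex (-((((b : ℤ) ^ c * h : ℤ) : ℝ) * q / ((b ^ k - 1 : ℕ) : ℝ))) else 0) =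
    gs b w (b ^ k - 1) ((b : ℤ) ^ ((c + e) % k) * h) (y * (b : ℝ) ^ i) := by
  classical
  have hbk : 2 ≤ b ^ k := by
    calc 2 ≤ b := hb
      _ = b ^ 1 := (pow_one b).symm
      _ ≤ b ^ k := Nat.pow_le_pow_right (by omega) hk
  set M : ℕ := b ^ k - 1 with hMdef
  have hM : 1 ≤ M := by omega
  have hMR : (0 : ℝ) < M := by exact_mod_cast hM
  have hMbk : b ^ k = M + 1 := by omega
  have hcop : Nat.Coprime (b ^ e) M := by
    apply Nat.Coprime.pow_left
    have h1 : Nat.Coprime (b ^ k) M := by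
      rw [hMbk]
      simp
    exact Nat.Coprime.coprime_dvd_left (dvd_pow_self b (by omega)) h1
  set G : ℤ → ℂ := fun z => if Dg b w ((y + (z : ℝ) / (M : ℝ)) * (b : ℝ) ^ i) then
      ex (-((((b : ℤ) ^ c * h : ℤ) : ℝ) * z / (M : ℝ))) else 0 with hG
  have hper : ∀ z : ℤ, G (z % M) = G z := by
    intro z
    have h4 : (z : ℝ) = M * ((z / (M : ℤ) : ℤ) : ℝ) + ((z % (M : ℤ) : ℤ) : ℝ) := by
      exact_mod_cast (Int.mul_ediv_add_emod z M).symm
    have h5 : ((z % (M : ℤ) : ℤ) : ℝ) = z - M * ((z / (M : ℤ) : ℤ) : ℝ) := by linarith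
    have e1 : (y + ((z % (M : ℤ) : ℤ) : ℝ) / (M : ℝ)) * (b : ℝ) ^ i =
        (y + (z : ℝ) / (M : ℝ)) * (b : ℝ) ^ i + ((-(z / (M : ℤ)) * (b : ℤ) ^ i : ℤ) : ℝ) := by
      rw [h5]
      push_cast
      field_simp
      ring
    have e2 : ex (-((((b : ℤ) ^ c * h : ℤ) : ℝ) * ((z % (M : ℤ) : ℤ) : ℝ) / (M : ℝ))) =
        ex (-((((b : ℤ) ^ c * h : ℤ) : ℝ) * z / (M : ℝ))) := by
      refine ex_congr ((b : ℤ) ^ c * h * (z / (M : ℤ))) ?_
      rw [h5]
      push_cast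
      field_simp
      ring
    have e3 := dg_congr (b := b) (w := w) _ e1
    simp only [hG]
    rw [e2]
    by_cases hd : Dg b w ((y + (z : ℝ) / (M : ℝ)) * (b : ℝ) ^ i)
    · rw [if_pos hd, if_pos (e3.2 hd)]
    · rw [if_neg hd, if_neg (fun h => hd (e3.1 h))]
  have h1 := sum_subst hM hcop G hper
  have h2 : (∑ q ∈ range M, if Dg b w ((y + (q : ℝ) / (M : ℝ)) * (b : ℝ) ^ i) then
      ex (-((((b : ℤ) ^ c * h : ℤ) : ℝ) * q / (M : ℝ))) else 0) = ∑ q ∈ range M, G (q : ℤ) := by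
    refine sum_congr rfl fun q _ => ?_
    simp only [hG, Int.cast_natCast]
  rw [h2, h1]
  unfold gs
  rw [sum_filter]
  refine sum_congr rfl fun q _ => ?_
  obtain ⟨μ, hμ⟩ := dvd_pow_sub_one b k l (by omega)
  obtain ⟨ν, hν⟩ := dvd_pow_sub_one b k ((c + e) / k) (by omega)
  rw [← hMdef] at hμ hν
  have e1 : (y + (((b ^ e : ℕ) : ℤ) * (q : ℤ) : ℤ) / (M : ℝ)) * (b : ℝ) ^ i =
      (y * (b : ℝ) ^ i + (q : ℝ) / M) + ((μ * q : ℤ) : ℝ) := by
    have h3 : (b : ℝ) ^ e * (b : ℝ) ^ i = 1 + M * μ := by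
      rw [← pow_add, he]
      exact_mod_cast hμ
    push_cast
    field_simp
    linear_combination (q : ℝ) * h3
  have e2 : ex (-((((b : ℤ) ^ c * h : ℤ) : ℝ) * (((b ^ e : ℕ) : ℤ) * (q : ℤ) : ℤ) / (M : ℝ))) =
      ex (-((((b : ℤ) ^ ((c + e) % k) * h : ℤ) : ℝ) * q / M)) := by
    refine ex_congr (-((b : ℤ) ^ ((c + e) % k) * h * ν * q)) ?_
    have h3 : (b : ℝ) ^ c * (b : ℝ) ^ e = (b : ℝ) ^ ((c + e) % k) * (1 + M * ν) := by
      have h4 : (b : ℝ) ^ (k * ((c + e) / k)) = 1 + M * ν := by exact_mod_cast hν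
      rw [← h4, ← pow_add, ← pow_add]
      congr 1
      exact (Nat.mod_add_div (c + e) k).symm
    push_cast
    field_simp
    linear_combination (-(h : ℝ) * q) * h3
  have e3 := dg_congr (b := b) (w := w) _ e1
  simp only [hG]
  rw [e2]
  by_cases hd : Dg b w (y * (b : ℝ) ^ i + (q : ℝ) / M)
  · rw [if_pos hd, if_pos (e3.2 hd)]
  · rw [if_neg hd, if_neg (fun h => hd (e3.1 h))]

open Classical in
theorem ts_eq {n : ℕ} (b M : ℕ) (w : Fin n → ℕ) (y : Fin n → ℝ) (i : ℕ) (s : Fin n → ℤ) :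
    ts b M w y i s = ∏ j, ∑ q ∈ range M,
      if Dg b (w j) ((y j + (q : ℝ) / M) * (b : ℝ) ^ i) then ex (-((s j : ℝ) * q / M)) else 0 := by
  classical
  rw [Finset.prod_univ_sum]
  unfold ts
  rw [sum_filter]
  refine sum_congr rfl fun p _ => ?_
  rw [Finset.prod_ite_zero]
  simp only [mem_univ, true_imp_iff]
  congr 1
  rw [← ex_sum, sum_neg_distrib, neg_div, sum_div]

/-- difference of products -/
theorem prod_diff {ι : Type*} (s : Finset ι) (x y : ι → ℂ) (K δ : ℝ) (hK : 1 ≤ K) (hδ : 0 ≤ δ)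
    (hx : ∀ j ∈ s, ‖x j‖ ≤ K) (hy : ∀ j ∈ s, ‖y j‖ ≤ K) (hd : ∀ j ∈ s, ‖x j - y j‖ ≤ δ) :
    ‖∏ j ∈ s, x j - ∏ j ∈ s, y j‖ ≤ s.card * K ^ s.card * δ := by
  classical
  induction s using Finset.induction_on with
  | empty => simp
  | insert a s ha ih =>
    have ih' := ih (fun j hj => hx j (mem_insert_of_mem hj)) (fun j hj => hy j (mem_insert_of_mem hj))
      fun j hj => hd j (mem_insert_of_mem hj)
    rw [prod_insert ha, prod_insert ha, card_insert_of_notMem ha]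
    have e : x a * ∏ j ∈ s, x j - y a * ∏ j ∈ s, y j =
        (x a - y a) * ∏ j ∈ s, x j + y a * (∏ j ∈ s, x j - ∏ j ∈ s, y j) := by ring
    have h1 : ‖∏ j ∈ s, x j‖ ≤ K ^ s.card := by
      rw [norm_prod]
      calc ∏ j ∈ s, ‖x j‖ ≤ ∏ j ∈ s, K :=
          prod_le_prod (fun _ _ => norm_nonneg _) fun j hj => hx j (mem_insert_of_mem hj)
        _ = K ^ s.card := prod_const K
    have hK0 : 0 ≤ K := by linarith
    have hKs : 0 ≤ K ^ s.card := pow_nonneg hK0 _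
    rw [e]
    refine (norm_add_le _ _).trans ?_
    rw [norm_mul, norm_mul]
    have h2 : ‖x a - y a‖ * ‖∏ j ∈ s, x j‖ ≤ δ * K ^ s.card :=
      mul_le_mul (hd a (mem_insert_self a s)) h1 (norm_nonneg _) hδ
    have h3 : ‖y a‖ * ‖∏ j ∈ s, x j - ∏ j ∈ s, y j‖ ≤ K * (s.card * K ^ s.card * δ) :=
      mul_le_mul (hy a (mem_insert_self a s)) ih' (norm_nonneg _) hK0
    have h4 : δ * K ^ s.card ≤ δ * (K * K ^ s.card) := by
      apply mul_le_mul_of_nonneg_left _ hδ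
      nlinarith
    push_cast
    rw [pow_succ]
    nlinarith

theorem mod_iff {k i c e l : ℕ} (hc : c < k) (he : e + i = k * l) : (c + e) % k = 0 ↔ i % k = c := by
  constructor
  · intro h
    have h1 : (c + e) + i ≡ 0 + i [MOD k] := Nat.ModEq.add_right i (by
      unfold Nat.ModEq
      rw [h, Nat.zero_mod])
    have h2 : (c + e) + i ≡ c + 0 [MOD k] := by
      rw [add_assoc, he]
      exact Nat.ModEq.add_left c (by
        unfold Nat.ModEq
        rw [Nat.mul_mod_right, Nat.zero_mod])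
    have h3 : 0 + i ≡ c + 0 [MOD k] := h1.symm.trans h2
    unfold Nat.ModEq at h3
    rw [zero_add, add_zero, Nat.mod_eq_of_lt hc] at h3
    exact h3
  · intro h
    have h2 : (c + e) + i ≡ c + 0 [MOD k] := by
      rw [add_assoc, he]
      exact Nat.ModEq.add_left c (by
        unfold Nat.ModEq
        rw [Nat.mul_mod_right, Nat.zero_mod])
    have h3 : c + 0 ≡ 0 + i [MOD k] := by
      unfold Nat.ModEq
      rw [zero_add, add_zero, h, Nat.mod_eq_of_lt hc]
    have h4 : c + e ≡ 0 [MOD k] := Nat.ModEq.add_right_cancel' i (h2.trans h3)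
    unfold Nat.ModEq at h4
    rw [h4, Nat.zero_mod]

theorem av_of (hGZ : S_GZ) (hGA : S_GA) (hGB : S_GB) : S_AV := by
  classical
  intro b n w h hb hw hh0 hh
  have hbR : (2 : ℝ) ≤ b := by exact_mod_cast hb
  have hbC : (b : ℂ) ≠ 0 := by exact_mod_cast (by omega : b ≠ 0)
  obtain ⟨j₀, hj₀⟩ : ∃ j, h j ≠ 0 := by
    by_contra hcon
    push Not at hcon
    exact hh0 (funext hcon)
  have hn : 0 < n := j₀.pos
  have hdata : ∀ j, ∃ κ : ℂ, κ ≠ 0 ∧ ∃ C : ℝ, 0 < C ∧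
      (∀ (M : ℕ), 1 ≤ M → ∀ u : ℝ, ‖gs b (w j) M (h j) u - (M : ℂ) * κ * ex ((h j : ℝ) * u)‖ ≤ C) ∧
      (h j ≠ 0 → ∀ (k a : ℕ), 1 ≤ a → a < k → ∀ u : ℝ,
        ‖gs b (w j) (b ^ k - 1) ((b : ℤ) ^ a * h j) u‖ ≤ C) := by
    intro j
    rcases hh j with h0 | h0
    · refine ⟨1 / b, one_div_ne_zero hbC, 1, one_pos, ?_, fun h1 => absurd h0 h1⟩
      intro M hM u
      rw [h0]
      have := hGZ b (w j) M hb (hw j) hM u
      have e : (M : ℂ) * (1 / b) * ex (((0 : ℤ) : ℝ) * u) = (M : ℂ) / b := by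
        rw [Int.cast_zero, zero_mul, ex_zero]
        ring
      rw [e]
      exact this
    · obtain ⟨κ, hκ, C₁, hC₁, h1⟩ := hGA b (w j) (h j) hb (hw j) h0
      obtain ⟨C₂, hC₂, h2⟩ := hGB b (w j) (h j) hb (hw j) h0
      refine ⟨κ, hκ, C₁ + C₂, by positivity, ?_, ?_⟩
      · intro M hM u
        exact (h1 M hM u).trans (by linarith)
      · intro _ k a ha hak u
        exact (h2 k a ha hak u).trans (by linarith)
  choose κ hκ C hC hG1 hG2 using hdata
  set C₀ : ℝ := ∑ j, C j with hC₀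
  have hCle : ∀ j, C j ≤ C₀ := fun j =>
    single_le_sum (f := C) (fun i _ => (hC i).le) (mem_univ j)
  have hC₀p : 0 < C₀ := (hC j₀).trans_le (hCle j₀)
  set K : ℝ := 1 + ∑ j, ‖κ j‖ with hKdef
  have hKs : 0 ≤ ∑ j, ‖κ j‖ := sum_nonneg fun _ _ => norm_nonneg _
  have hK1 : 1 ≤ K := by linarith
  have hKle : ∀ j, ‖κ j‖ ≤ K := fun j => by
    have := single_le_sum (f := fun j => ‖κ j‖) (fun i _ => norm_nonneg _) (mem_univ j)
    linarith
  refine ⟨∏ j, κ j, prod_ne_zero_iff.2 fun j _ => hκ j, n * K ^ n * (C₀ + 1) + C₀, by positivity,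
    fun k hk y i => ?_⟩
  have hbk : 2 ≤ b ^ k := by
    calc 2 ≤ b := hb
      _ = b ^ 1 := (pow_one b).symm
      _ ≤ b ^ k := Nat.pow_le_pow_right (by omega) hk
  have hfac : ∀ (c : ℕ) (h' : ℤ) (j : Fin n), (∑ q ∈ range (b ^ k - 1),
      if Dg b (w j) ((y j + (q : ℝ) / ((b ^ k - 1 : ℕ) : ℝ)) * (b : ℝ) ^ i) then
        ex (-((((b : ℤ) ^ c * h' : ℤ) : ℝ) * q / ((b ^ k - 1 : ℕ) : ℝ))) else 0) =
      gs b (w j) (b ^ k - 1) ((b : ℤ) ^ ((c + (k * i - i)) % k) * h') (y j * (b : ℝ) ^ i) := by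
    intro c h' j
    refine factor_eq hb hk (w j) h' c i (k * i - i) i ?_ (y j)
    have : i ≤ k * i := Nat.le_mul_of_pos_left i (by omega)
    omega
  have hki : k * i - i + i = k * i := by
    have : i ≤ k * i := Nat.le_mul_of_pos_left i (by omega)
    omega
  set M : ℕ := b ^ k - 1 with hMdef
  have hM : 1 ≤ M := by omega
  have hMR : (0 : ℝ) < M := by exact_mod_cast hM
  have hMC : (M : ℂ) ≠ 0 := by exact_mod_cast (by omega : M ≠ 0)
  have hMn : (M : ℝ) ^ n = (M : ℝ) ^ (n - 1) * M := by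
    rw [← pow_succ]
    congr 1
    omega
  -- general bound
  have gen : ∀ (F A : Fin n → ℂ) (D : ℝ), 0 ≤ D → (∀ j, ‖F j‖ ≤ M) → (∀ j, ‖A j‖ ≤ K) →
      (∀ j, ‖F j - M * A j‖ ≤ D) →
      ‖∏ j, F j - (M : ℂ) ^ n * ∏ j, A j‖ ≤ n * K ^ n * D * (M : ℝ) ^ (n - 1) := by
    intro F A D hD hF hA hFA
    have h1 := prod_diff (univ : Finset (Fin n)) (fun j => F j / M) A K (D / M) hK1
      (by positivity) (fun j _ => by
        rw [norm_div, Complex.norm_natCast, div_le_iff₀ hMR]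
        have := hF j
        nlinarith) (fun j _ => hA j) (fun j _ => by
        have e : F j / M - A j = (F j - M * A j) / M := by
          field_simp
        rw [e, norm_div, Complex.norm_natCast]
        exact div_le_div_of_nonneg_right (hFA j) hMR.le)
    rw [card_univ, Fintype.card_fin] at h1
    have e : ∏ j, F j - (M : ℂ) ^ n * ∏ j, A j = (M : ℂ) ^ n * (∏ j, F j / M - ∏ j, A j) := by
      rw [prod_div_distrib, prod_const, card_univ, Fintype.card_fin]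
      field_simp
    rw [e, norm_mul, norm_pow, Complex.norm_natCast]
    calc (M : ℝ) ^ n * ‖∏ j, F j / M - ∏ j, A j‖ ≤ (M : ℝ) ^ n * (n * K ^ n * (D / M)) :=
        mul_le_mul_of_nonneg_left h1 (by positivity)
      _ = n * K ^ n * D * (M : ℝ) ^ (n - 1) := by
          rw [hMn]
          field_simp
  refine ⟨?_, ?_, ?_⟩
  · intro c hc hic
    have ha : (c + (k * i - i)) % k = 0 := (mod_iff hc hki).2 hic
    rw [ts_eq, prod_congr rfl fun j _ => hfac c (h j) j]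
    simp only [ha, pow_zero, one_mul]
    have h1 := gen (fun j => gs b (w j) M (h j) (y j * (b : ℝ) ^ i))
      (fun j => κ j * ex ((h j : ℝ) * (y j * (b : ℝ) ^ i))) C₀ hC₀p.le
      (fun j => norm_gs_le _ _ _ _ _) (fun j => by
        rw [norm_mul, norm_ex, mul_one]
        exact hKle j) (fun j => by
        rw [← mul_assoc]
        exact (hG1 j M hM _).trans (hCle j))
    have e : (M : ℂ) ^ n * ∏ j, κ j * ex ((h j : ℝ) * (y j * (b : ℝ) ^ i)) =
        (M : ℂ) ^ n * (∏ j, κ j) * ex (∑ j, (h j : ℝ) * y j * (b : ℝ) ^ i) := by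
      rw [ex_sum, prod_mul_distrib, mul_assoc]
      congr 2
      refine prod_congr rfl fun j _ => ?_
      rw [mul_assoc]
    rw [e] at h1
    refine h1.trans ?_
    apply mul_le_mul_of_nonneg_right _ (by positivity)
    have : 0 ≤ (n : ℝ) * K ^ n := by positivity
    nlinarith
  · intro c hc hic
    have ha : (c + (k * i - i)) % k ≠ 0 := fun h0 => hic ((mod_iff hc hki).1 h0)
    have hak : (c + (k * i - i)) % k < k := Nat.mod_lt _ (by omega)
    rw [ts_eq, prod_congr rfl fun j _ => hfac c (h j) j, norm_prod,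
      ← Finset.mul_prod_erase univ _ (mem_univ j₀)]
    have h1 := hG2 j₀ hj₀ k _ (Nat.one_le_iff_ne_zero.2 ha) hak (y j₀ * (b : ℝ) ^ i)
    have h2 : ∏ j ∈ univ.erase j₀, ‖gs b (w j) M ((b : ℤ) ^ ((c + (k * i - i)) % k) * h j)
        (y j * (b : ℝ) ^ i)‖ ≤ (M : ℝ) ^ (n - 1) := by
      calc _ ≤ ∏ j ∈ univ.erase j₀, (M : ℝ) :=
            prod_le_prod (fun _ _ => norm_nonneg _) fun j _ => norm_gs_le _ _ _ _ _
        _ = (M : ℝ) ^ (n - 1) := by
            rw [prod_const, card_erase_of_mem (mem_univ j₀), card_univ, Fintype.card_fin]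
    calc _ ≤ C j₀ * (M : ℝ) ^ (n - 1) :=
          mul_le_mul h1 h2 (prod_nonneg fun _ _ => norm_nonneg _) (hC j₀).le
      _ ≤ _ := by
          apply mul_le_mul_of_nonneg_right _ (by positivity)
          have h3 := hCle j₀
          have : 0 ≤ (n : ℝ) * K ^ n * (C₀ + 1) := by positivity
          linarith
  · have ht : ∀ j : Fin n, (∑ q ∈ range M,
        if Dg b (w j) ((y j + (q : ℝ) / (M : ℝ)) * (b : ℝ) ^ i) then
          ex (-((((0 : Fin n → ℤ) j : ℤ) : ℝ) * q / (M : ℝ))) else 0) =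
        gs b (w j) M 0 (y j * (b : ℝ) ^ i) := by
      intro j
      have := hfac 0 0 j
      rw [mul_zero, mul_zero] at this
      exact this
    rw [ts_eq, prod_congr rfl fun j _ => ht j]
    have h1 := gen (fun j => gs b (w j) M 0 (y j * (b : ℝ) ^ i)) (fun _ => 1 / b) 1 zero_le_one
      (fun j => norm_gs_le _ _ _ _ _) (fun j => by
        rw [norm_div, norm_one, Complex.norm_natCast, div_le_iff₀ (by linarith)]
        nlinarith) (fun j => by
        have := hGZ b (w j) M hb (hw j) hM (y j * (b : ℝ) ^ i)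
        rw [mul_one_div]
        exact this)
    have e : (M : ℂ) ^ n * ∏ _j : Fin n, (1 / b : ℂ) = (M : ℂ) ^ n / (b : ℂ) ^ n := by
      rw [prod_const, card_univ, Fintype.card_fin, one_div, inv_pow]
      rfl
    rw [e] at h1
    refine h1.trans ?_
    apply mul_le_mul_of_nonneg_right _ (by positivity)
    have : 0 ≤ (n : ℝ) * K ^ n := by positivity
    nlinarith

theorem s_AV : S_AV := av_of s_GZ s_GA s_GB

theorem s_EX2 : S_EX2 := ex_of_av s_AV

end Pool.Agent.L7h4.OC
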