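import Pool.Agent.L7h4.OC.Stm

/-!
# Project OC (helper4): many translates with a deficiency of a column (EX)
-/

set_option autoImplicit false

open Finset Filter Topology

namespace Pool.Agent.L7h4.OC

theorem ex_zero : ex 0 = 1 := by simp [ex]

theorem ex_add (s t : ℝ) : ex (s + t) = ex s * ex t := by
  unfold ex
  rw [← Complex.exp_add]
  congr 1
  push_cast
  ring

theorem norm_ex (t : ℝ) : ‖ex t‖ = 1 := by
  unfold ex
  have e : (2 * Real.pi * t * Complex.I : ℂ) = ((2 * Real.pi * t : ℝ) : ℂ) * Complex.I := by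
    push_cast
    ring
  rw [e, Complex.norm_exp_ofReal_mul_I]

theorem ex_nat_mul (q : ℕ) (t : ℝ) : ex (q * t) = ex t ^ q := by
  unfold ex
  rw [← Complex.exp_nat_mul]
  congr 1
  push_cast
  ring

theorem ex_sum {ι : Type*} (s : Finset ι) (f : ι → ℝ) : ex (∑ i ∈ s, f i) = ∏ i ∈ s, ex (f i) := by
  classical
  induction s using Finset.induction_on with
  | empty => simp [ex_zero]
  | insert a s ha ih => rw [sum_insert ha, prod_insert ha, ex_add, ih]

theorem ex_int (t : ℤ) : ex t = 1 := by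
  unfold ex
  have := Complex.exp_int_mul_two_pi_mul_I t
  rw [← this]
  congr 1
  push_cast
  ring

theorem ex_eq_one {t : ℝ} (h : ex t = 1) : ∃ m : ℤ, t = m := by
  unfold ex at h
  obtain ⟨m, hm⟩ := Complex.exp_eq_one_iff.1 h
  refine ⟨m, ?_⟩
  have h2 : (2 * Real.pi * Complex.I : ℂ) ≠ 0 := by
    simp [Real.pi_ne_zero]
  have h3 : (2 * Real.pi * Complex.I : ℂ) * t = (2 * Real.pi * Complex.I : ℂ) * m := by
    linear_combination hm
  have h4 := mul_left_cancel₀ h2 h3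
  exact_mod_cast h4

/-- orthogonality -/
theorem char_sum {M : ℕ} (hM : 1 ≤ M) {s : ℤ} (hs : ¬ (M : ℤ) ∣ s) :
    ∑ q ∈ range M, ex (-((s : ℝ) * q / M)) = 0 := by
  have hM0 : (M : ℝ) ≠ 0 := by exact_mod_cast (by omega : M ≠ 0)
  have e : ∀ q : ℕ, ex (-((s : ℝ) * q / M)) = ex (-(s : ℝ) / M) ^ q := by
    intro q
    rw [← ex_nat_mul]
    congr 1
    ring
  simp only [e]
  have hne : ex (-(s : ℝ) / M) ≠ 1 := by
    intro h
    obtain ⟨m, hm⟩ := ex_eq_one h
    apply hs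
    refine ⟨-m, ?_⟩
    rw [div_eq_iff hM0] at hm
    have h2 : -(s : ℝ) = ((m * M : ℤ) : ℝ) := by push_cast; exact hm
    have h3 : -s = m * M := by exact_mod_cast h2
    linarith
  rw [geom_sum_eq hne, ← ex_nat_mul]
  have h2 : (M : ℝ) * (-(s : ℝ) / M) = ((-s : ℤ) : ℝ) := by
    field_simp
    push_cast
    ring
  rw [h2, ex_int, sub_self, zero_div]

/-- large `k` -/
theorem exists_k (A : ℝ) : ∃ k₀ : ℕ, 1 ≤ k₀ ∧ ∀ k, k₀ ≤ k → A * k + 1 ≤ (2 : ℝ) ^ k := by
  have h1 : Tendsto (fun k : ℕ => (k : ℝ) ^ 1 / (2 : ℝ) ^ k) atTop (𝓝 0) :=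
    tendsto_pow_const_div_const_pow_of_one_lt 1 (by norm_num)
  have h2 : ∀ᶠ k : ℕ in atTop, (k : ℝ) ^ 1 / (2 : ℝ) ^ k < 1 / (|A| + 1) :=
    h1.eventually (gt_mem_nhds (by positivity))
  obtain ⟨k₁, hk₁⟩ := eventually_atTop.1 h2
  refine ⟨max k₁ 1, le_max_right _ _, fun k hk => ?_⟩
  have h3 := hk₁ k ((le_max_left _ _).trans hk)
  have hk1 : (1 : ℝ) ≤ k := by exact_mod_cast (le_max_right _ _).trans hk
  rw [pow_one, div_lt_div_iff₀ (by positivity) (by positivity)] at h3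
  have h4 : A * k ≤ |A| * k := mul_le_mul_of_nonneg_right (le_abs_self A) (by linarith)
  nlinarith

/-- few values below the mean minus something would bound the mean of the negative part -/
theorem many_neg {ι : Type*} (P : Finset ι) (X : ι → ℝ) (N c S D : ℝ) (hN : 0 ≤ N)
    (hX : ∀ p ∈ P, -N ≤ X p) (hS : S ≤ ∑ p ∈ P, |X p|) (hD : ∑ p ∈ P, X p ≤ D) (hc : 0 ≤ c) :
    (S - D) / 2 - P.card * c ≤ ((P.filter fun p => X p ≤ -c).card : ℝ) * N := by
  classical
  have h1 : (S - D) / 2 ≤ ∑ p ∈ P, max (-X p) 0 := by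
    have h2 : ∑ p ∈ P, max (-X p) 0 = (∑ p ∈ P, |X p| - ∑ p ∈ P, X p) / 2 := by
      rw [← sum_sub_distrib, sum_div]
      refine sum_congr rfl fun p _ => ?_
      rcases le_total 0 (X p) with h | h
      · rw [abs_of_nonneg h, max_eq_right (by linarith)]
        ring
      · rw [abs_of_nonpos h, max_eq_left (by linarith)]
        ring
    rw [h2]
    linarith
  have h3 : ∑ p ∈ P, max (-X p) 0 ≤ ∑ p ∈ P, (c + if X p ≤ -c then N else 0) := by
    refine sum_le_sum fun p hp => ?_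
    have := hX p hp
    split_ifs with h
    · exact max_le (by linarith) (by linarith)
    · push Not at h
      exact max_le (by linarith) (by linarith)
  rw [sum_add_distrib, sum_const, nsmul_eq_mul, ← sum_filter, sum_const, nsmul_eq_mul] at h3
  linarith

/-- the counting function as a sum -/
theorem cnt_sum {n : ℕ} (b M : ℕ) (w : Fin n → ℕ) (y : Fin n → ℝ) (N : ℕ) (s : Fin n → ℤ) :
    ∑ p ∈ Fintype.piFinset fun _ : Fin n => range M,
      (cnt b w (fun j => y j + (p j : ℝ) / M) N : ℂ) * ex (-(∑ j, (s j : ℝ) * (p j : ℝ)) / M) =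
      ∑ i ∈ range N, ts b M w y i s := by
  classical
  have h1 : ∀ p : Fin n → ℕ, (cnt b w (fun j => y j + (p j : ℝ) / M) N : ℂ) *
      ex (-(∑ j, (s j : ℝ) * (p j : ℝ)) / M) = ∑ i ∈ range N,
        if (∀ j, Dg b (w j) ((y j + (p j : ℝ) / M) * (b : ℝ) ^ i)) then
          ex (-(∑ j, (s j : ℝ) * (p j : ℝ)) / M) else 0 := by
    intro p
    unfold cnt
    rw [← sum_filter, sum_const, nsmul_eq_mul]
  rw [sum_congr rfl fun p _ => h1 p, sum_comm]
  refine sum_congr rfl fun i _ => ?_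
  unfold ts
  rw [sum_filter]

theorem cnt_le {n : ℕ} (b : ℕ) (w : Fin n → ℕ) (y : Fin n → ℝ) (N : ℕ) : cnt b w y N ≤ N := by
  classical
  unfold cnt
  exact (card_filter_le _ _).trans (by rw [card_range])

open Classical in
/-- many translates with a deficiency (`σ = 1`) and many with an excess (`σ = -1`) -/
def S_EX2 : Prop :=
  ∀ (b n : ℕ) (w : Fin n → ℕ) (h : Fin n → ℤ), 2 ≤ b → (∀ j, w j < b) → h ≠ 0 →
    (∀ j, h j = 0 ∨ ¬ (b : ℤ) ∣ h j) → ∀ η : ℝ, 0 < η →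
    ∃ c : ℝ, 0 < c ∧ ∃ k₀ : ℕ, 1 ≤ k₀ ∧ ∀ k, k₀ ≤ k → ∀ y : Fin n → ℝ,
      (∃ᶠ N : ℕ in atTop, η * N ≤ ‖∑ i ∈ range N, ex (∑ j, (h j : ℝ) * y j * (b : ℝ) ^ i)‖) →
      ∀ σ : ℝ, (σ = 1 ∨ σ = -1) →
      c / k * ((b ^ k - 1 : ℕ) : ℝ) ^ n ≤
        (((Fintype.piFinset fun _ : Fin n => range (b ^ k - 1)).filter fun p : Fin n → ℕ =>
          ∃ᶠ N : ℕ in atTop,
            σ * ((cnt b w (fun j => y j + (p j : ℝ) / ((b ^ k - 1 : ℕ) : ℝ)) N : ℝ) -
              N / (b : ℝ) ^ n) ≤ -(c / k * N)).card : ℝ)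

theorem ex_of_av (hAV : S_AV) : S_EX2 := by
  classical
  intro b n w h hb hw hh0 hh η hη
  obtain ⟨κ, hκ, C, hC, H⟩ := hAV b n w h hb hw hh0 hh
  have hK : 0 < ‖κ‖ := norm_pos_iff.2 hκ
  obtain ⟨j₀, hj₀⟩ : ∃ j, h j ≠ 0 := by
    by_contra hcon
    push Not at hcon
    exact hh0 (funext hcon)
  have hn : 0 < n := j₀.pos
  set c₀ : ℝ := ‖κ‖ * η / 8 with hc₀
  have hc₀p : 0 < c₀ := by positivity
  obtain ⟨k₀, hk₀, hk₀'⟩ := exists_k (max (4 * C / (‖κ‖ * η)) (|(h j₀ : ℝ)| + 1))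
  refine ⟨c₀, hc₀p, k₀, hk₀, fun k hk y hfr σ hσ => ?_⟩
  have hk1 : 1 ≤ k := hk₀.trans hk
  have hkR : (1 : ℝ) ≤ k := by exact_mod_cast hk1
  have hkR0 : (0 : ℝ) < k := by linarith
  set M : ℕ := b ^ k - 1 with hM
  have hbR : (2 : ℝ) ≤ b := by exact_mod_cast hb
  have hbk : 1 ≤ b ^ k := Nat.one_le_pow _ _ (by omega)
  have hMR : (M : ℝ) = (b : ℝ) ^ k - 1 := by
    rw [hM, Nat.cast_sub hbk]
    push_cast
    ring
  have hM2 : max (4 * C / (‖κ‖ * η)) (|(h j₀ : ℝ)| + 1) * k ≤ M := by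
    have h1 := hk₀' k hk
    have h2 : (2 : ℝ) ^ k ≤ (b : ℝ) ^ k := pow_le_pow_left₀ (by norm_num) hbR k
    rw [hMR]
    linarith
  have hMC : 4 * C * k ≤ ‖κ‖ * η * M := by
    have h1 : 4 * C / (‖κ‖ * η) * k ≤ M := le_trans
      (mul_le_mul_of_nonneg_right (le_max_left _ _) hkR0.le) hM2
    have h2 : 0 < ‖κ‖ * η := by positivity
    rw [div_mul_eq_mul_div, div_le_iff₀ h2] at h1
    linarith
  have hMh : |(h j₀ : ℝ)| < M := by
    have h1 : (|(h j₀ : ℝ)| + 1) * k ≤ M := le_trans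
      (mul_le_mul_of_nonneg_right (le_max_right _ _) hkR0.le) hM2
    nlinarith [abs_nonneg (h j₀ : ℝ)]
  have hMpos : (0 : ℝ) < M := lt_of_le_of_lt (abs_nonneg _) hMh
  have hM1 : 1 ≤ M := by
    have : 0 < M := by exact_mod_cast hMpos
    omega
  set P : Finset (Fin n → ℕ) := Fintype.piFinset fun _ : Fin n => range M with hP
  have hPc : (P.card : ℝ) = (M : ℝ) ^ n := by
    rw [hP, Fintype.card_piFinset]
    simp
  have hMn : (M : ℝ) ^ (n - 1) * M = (M : ℝ) ^ n := by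
    rw [← pow_succ]
    congr 1
    omega
  -- the character sums vanish
  have hchar : ∀ c < k, ∑ p ∈ P, ex (-(∑ j, (((b : ℤ) ^ c * h j : ℤ) : ℝ) * (p j : ℝ)) / M) = 0 := by
    intro c _
    have h1 : ∀ p : Fin n → ℕ, ex (-(∑ j, (((b : ℤ) ^ c * h j : ℤ) : ℝ) * (p j : ℝ)) / M) =
        ∏ j, ex (-((((b : ℤ) ^ c * h j : ℤ) : ℝ) * (p j : ℝ) / M)) := by
      intro p
      rw [← ex_sum, sum_neg_distrib, neg_div, sum_div]
    rw [sum_congr rfl fun p _ => h1 p, hP,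
      ← Finset.prod_univ_sum (fun _ : Fin n => range M)
        (fun j q => ex (-((((b : ℤ) ^ c * h j : ℤ) : ℝ) * (q : ℝ) / M)))]
    refine prod_eq_zero (mem_univ j₀) (char_sum hM1 ?_)
    intro hdvd
    have hcop : IsCoprime (M : ℤ) ((b : ℤ) ^ c) := by
      apply IsCoprime.pow_right
      have h2 : (M : ℤ) = (b : ℤ) ^ k - 1 := by
        rw [hM, Nat.cast_sub hbk]
        push_cast
        ring
      refine ⟨-1, (b : ℤ) ^ (k - 1), ?_⟩
      rw [h2]
      have h3 : (b : ℤ) ^ k = (b : ℤ) ^ (k - 1) * b := by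
        rw [← pow_succ]
        congr 1
        omega
      rw [h3]
      ring
    have h2 := hcop.dvd_of_dvd_mul_left hdvd
    have h3 := Int.le_of_dvd (by positivity : (0 : ℤ) < |h j₀|) ((dvd_abs _ _).2 h2)
    have h4 : (M : ℝ) ≤ |(h j₀ : ℝ)| := by exact_mod_cast h3
    linarith
  -- the deviations
  set X : ℕ → (Fin n → ℕ) → ℝ := fun N p =>
    (cnt b w (fun j => y j + (p j : ℝ) / M) N : ℝ) - N / (b : ℝ) ^ n with hX
  set Q : ℕ → Finset (Fin n → ℕ) := fun N => P.filter fun p => σ * X N p ≤ -(c₀ / k * N) with hQ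
  have key : ∀ N : ℕ, 1 ≤ N →
      η * N ≤ ‖∑ i ∈ range N, ex (∑ j, (h j : ℝ) * y j * (b : ℝ) ^ i)‖ →
      c₀ / k * (M : ℝ) ^ n ≤ ((Q N).card : ℝ) := by
    intro N hN hη'
    have hNR : (1 : ℝ) ≤ N := by exact_mod_cast hN
    -- lower bound for the sum of the absolute values
    have hlow : ∀ c < k, (M : ℝ) ^ n * ‖κ‖ *
        ‖∑ i ∈ (range N).filter (fun i => i % k = c), ex (∑ j, (h j : ℝ) * y j * (b : ℝ) ^ i)‖ -
          N * (C * (M : ℝ) ^ (n - 1)) ≤ ∑ p ∈ P, |X N p| := by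
      intro c hc
      have h1 : (∑ p ∈ P, (X N p : ℂ) *
          ex (-(∑ j, (((b : ℤ) ^ c * h j : ℤ) : ℝ) * (p j : ℝ)) / M)) =
          ∑ i ∈ range N, ts b M w y i (fun j => (b : ℤ) ^ c * h j) := by
        rw [← cnt_sum b M w y N (fun j => (b : ℤ) ^ c * h j)]
        have h2 : ∀ p : Fin n → ℕ, (X N p : ℂ) *
            ex (-(∑ j, (((b : ℤ) ^ c * h j : ℤ) : ℝ) * (p j : ℝ)) / M) =
            (cnt b w (fun j => y j + (p j : ℝ) / M) N : ℂ) *
            ex (-(∑ j, (((b : ℤ) ^ c * h j : ℤ) : ℝ) * (p j : ℝ)) / M) -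
            ((N / (b : ℝ) ^ n : ℝ) : ℂ) *
              ex (-(∑ j, (((b : ℤ) ^ c * h j : ℤ) : ℝ) * (p j : ℝ)) / M) := by
          intro p
          rw [hX]
          push_cast
          ring
        rw [sum_congr rfl fun p _ => h2 p, sum_sub_distrib, ← mul_sum, hchar c hc, mul_zero,
          sub_zero]
      have h2 : ‖∑ i ∈ range N, ts b M w y i (fun j => (b : ℤ) ^ c * h j)‖ ≤ ∑ p ∈ P, |X N p| := by
        rw [← h1]
        refine (norm_sum_le _ _).trans (sum_le_sum fun p _ => ?_)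
        rw [norm_mul, norm_ex, mul_one, Complex.norm_real, Real.norm_eq_abs]
      have h3 : ‖∑ i ∈ range N, ts b M w y i (fun j => (b : ℤ) ^ c * h j) -
          (M : ℂ) ^ n * κ * ∑ i ∈ (range N).filter (fun i => i % k = c),
            ex (∑ j, (h j : ℝ) * y j * (b : ℝ) ^ i)‖ ≤ N * (C * (M : ℝ) ^ (n - 1)) := by
        rw [sum_filter, mul_sum, ← sum_sub_distrib]
        refine (norm_sum_le _ _).trans ?_
        calc ∑ i ∈ range N, ‖ts b M w y i (fun j => (b : ℤ) ^ c * h j) - (M : ℂ) ^ n * κ *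
              (if i % k = c then ex (∑ j, (h j : ℝ) * y j * (b : ℝ) ^ i) else 0)‖
            ≤ ∑ i ∈ range N, C * (M : ℝ) ^ (n - 1) := by
              refine sum_le_sum fun i _ => ?_
              by_cases hi : i % k = c
              · rw [if_pos hi]
                exact (H k hk1 y i).1 c hc hi
              · rw [if_neg hi, mul_zero, sub_zero]
                exact (H k hk1 y i).2.1 c hc hi
          _ = N * (C * (M : ℝ) ^ (n - 1)) := by rw [sum_const, card_range, nsmul_eq_mul]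
      have h4 : ‖(M : ℂ) ^ n * κ * ∑ i ∈ (range N).filter (fun i => i % k = c),
            ex (∑ j, (h j : ℝ) * y j * (b : ℝ) ^ i)‖ = (M : ℝ) ^ n * ‖κ‖ *
          ‖∑ i ∈ (range N).filter (fun i => i % k = c),
            ex (∑ j, (h j : ℝ) * y j * (b : ℝ) ^ i)‖ := by
        rw [norm_mul, norm_mul, norm_pow, Complex.norm_natCast]
      rw [← h4]
      have h5 := norm_sub_norm_le ((M : ℂ) ^ n * κ * ∑ i ∈ (range N).filter (fun i => i % k = c),
            ex (∑ j, (h j : ℝ) * y j * (b : ℝ) ^ i))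
            (∑ i ∈ range N, ts b M w y i (fun j => (b : ℤ) ^ c * h j))
      rw [norm_sub_rev] at h5
      linarith
    have hsum : ‖∑ i ∈ range N, ex (∑ j, (h j : ℝ) * y j * (b : ℝ) ^ i)‖ ≤
        ∑ c ∈ range k, ‖∑ i ∈ (range N).filter (fun i => i % k = c),
          ex (∑ j, (h j : ℝ) * y j * (b : ℝ) ^ i)‖ := by
      have h1 : ∑ c ∈ range k, ∑ i ∈ (range N).filter (fun i => i % k = c),
          ex (∑ j, (h j : ℝ) * y j * (b : ℝ) ^ i) =
          ∑ i ∈ range N, ex (∑ j, (h j : ℝ) * y j * (b : ℝ) ^ i) :=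
        sum_fiberwise_of_maps_to (fun i _ => mem_range.2 (Nat.mod_lt i (by omega))) _
      rw [← h1]
      exact norm_sum_le _ _
    have hlow2 : (M : ℝ) ^ n * N * (‖κ‖ * η / k - C / M) ≤ ∑ p ∈ P, |X N p| := by
      have h1 : ∑ c ∈ range k, ((M : ℝ) ^ n * ‖κ‖ *
          ‖∑ i ∈ (range N).filter (fun i => i % k = c), ex (∑ j, (h j : ℝ) * y j * (b : ℝ) ^ i)‖ -
            N * (C * (M : ℝ) ^ (n - 1))) ≤ ∑ c ∈ range k, ∑ p ∈ P, |X N p| :=
        sum_le_sum fun c hc => hlow c (mem_range.1 hc)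
      rw [sum_sub_distrib, ← mul_sum, sum_const, sum_const, card_range, nsmul_eq_mul,
        nsmul_eq_mul] at h1
      have h2 : (M : ℝ) ^ n * ‖κ‖ * (η * N) ≤ (M : ℝ) ^ n * ‖κ‖ *
          ∑ c ∈ range k, ‖∑ i ∈ (range N).filter (fun i => i % k = c),
            ex (∑ j, (h j : ℝ) * y j * (b : ℝ) ^ i)‖ :=
        mul_le_mul_of_nonneg_left (hη'.trans hsum) (by positivity)
      have h3 : (k : ℝ) * ((M : ℝ) ^ n * N * (‖κ‖ * η / k - C / M)) ≤
          k * ∑ p ∈ P, |X N p| := by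
        have e1 : (k : ℝ) * ((M : ℝ) ^ n * N * (‖κ‖ * η / k - C / M)) =
            (M : ℝ) ^ n * ‖κ‖ * (η * N) - k * (N * (C * (M : ℝ) ^ (n - 1))) := by
          rw [← hMn]
          field_simp
        rw [e1]
        linarith
      exact le_of_mul_le_mul_left h3 hkR0
    have hmean : ∑ p ∈ P, σ * X N p ≤ N * (C * (M : ℝ) ^ (n - 1)) := by
      have h1 : (∑ p ∈ P, (X N p : ℂ)) = ∑ i ∈ range N,
          (ts b M w y i 0 - (M : ℂ) ^ n / (b : ℂ) ^ n) := by
        have h2 := cnt_sum b M w y N 0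
        have h3 : ∀ p : Fin n → ℕ, ex (-(∑ j, (((0 : Fin n → ℤ) j : ℤ) : ℝ) * (p j : ℝ)) / M) = 1 := by
          intro p
          simp [ex_zero]
        simp only [h3, mul_one] at h2
        rw [sum_sub_distrib, ← h2, sum_const, card_range, nsmul_eq_mul]
        have h4 : ∀ p : Fin n → ℕ, (X N p : ℂ) = (cnt b w (fun j => y j + (p j : ℝ) / M) N : ℂ) -
            (N : ℂ) / (b : ℂ) ^ n := by
          intro p
          rw [hX]
          push_cast
          ring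
        rw [sum_congr rfl fun p _ => h4 p, sum_sub_distrib, sum_const, nsmul_eq_mul]
        have h5 : (P.card : ℂ) = (M : ℂ) ^ n := by exact_mod_cast hPc
        rw [h5]
        ring
      have h2 : ‖∑ p ∈ P, (X N p : ℂ)‖ ≤ N * (C * (M : ℝ) ^ (n - 1)) := by
        rw [h1]
        refine (norm_sum_le _ _).trans ?_
        calc ∑ i ∈ range N, ‖ts b M w y i 0 - (M : ℂ) ^ n / (b : ℂ) ^ n‖
            ≤ ∑ i ∈ range N, C * (M : ℝ) ^ (n - 1) :=
              sum_le_sum fun i _ => (H k hk1 y i).2.2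
          _ = N * (C * (M : ℝ) ^ (n - 1)) := by rw [sum_const, card_range, nsmul_eq_mul]
      have h3 : (∑ p ∈ P, (X N p : ℂ)) = ((∑ p ∈ P, X N p : ℝ) : ℂ) := by push_cast; rfl
      rw [h3, Complex.norm_real, Real.norm_eq_abs] at h2
      rw [← mul_sum]
      refine (le_abs_self _).trans (le_of_eq_of_le ?_ h2)
      rw [abs_mul]
      rcases hσ with rfl | rfl <;> simp
    have hXN : ∀ p ∈ P, -(N : ℝ) ≤ σ * X N p := by
      intro p _
      have h1 : (N : ℝ) / (b : ℝ) ^ n ≤ N :=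
        div_le_self (by linarith) (one_le_pow₀ (by linarith))
      have h0 : (0 : ℝ) ≤ (N : ℝ) / (b : ℝ) ^ n := by positivity
      have h2 : (0 : ℝ) ≤ (cnt b w (fun j => y j + (p j : ℝ) / M) N : ℝ) := Nat.cast_nonneg _
      have h3 : (cnt b w (fun j => y j + (p j : ℝ) / M) N : ℝ) ≤ N := by
        exact_mod_cast cnt_le b w _ N
      show -(N : ℝ) ≤ σ * (_ - _)
      rcases hσ with rfl | rfl <;> linarith
    have hlow3 : (M : ℝ) ^ n * N * (‖κ‖ * η / k - C / M) ≤ ∑ p ∈ P, |σ * X N p| := by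
      refine hlow2.trans (le_of_eq (sum_congr rfl fun p _ => ?_))
      rw [abs_mul]
      rcases hσ with rfl | rfl <;> simp
    have h6 := many_neg P (fun p => σ * X N p) N (c₀ / k * N) _ _ (by linarith) hXN hlow3 hmean
      (by positivity)
    rw [hPc] at h6
    have h7 : (2 * (c₀ / k * (M : ℝ) ^ n)) * N ≤
        ((M : ℝ) ^ n * N * (‖κ‖ * η / k - C / M) - N * (C * (M : ℝ) ^ (n - 1))) / 2 := by
      have h8 : (M : ℝ) ^ n * N * (‖κ‖ * η / k - C / M) - N * (C * (M : ℝ) ^ (n - 1)) =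
          (M : ℝ) ^ n * N * (‖κ‖ * η / k - 2 * C / M) := by
        rw [← hMn]
        field_simp
        ring
      rw [h8]
      have h9 : 2 * C / M ≤ ‖κ‖ * η / (2 * k) := by
        rw [div_le_div_iff₀ hMpos (by positivity)]
        linarith
      have h10 : ‖κ‖ * η / (2 * k) ≤ ‖κ‖ * η / k - 2 * C / M := by
        have : ‖κ‖ * η / k = ‖κ‖ * η / (2 * k) + ‖κ‖ * η / (2 * k) := by
          field_simp
          ring
        linarith
      have h11 : (M : ℝ) ^ n * N * (‖κ‖ * η / (2 * k)) ≤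
          (M : ℝ) ^ n * N * (‖κ‖ * η / k - 2 * C / M) :=
        mul_le_mul_of_nonneg_left h10 (by positivity)
      have h12 : (2 * (c₀ / k * (M : ℝ) ^ n)) * N = (M : ℝ) ^ n * N * (‖κ‖ * η / (2 * k)) / 2 := by
        rw [hc₀]
        field_simp
        ring
      rw [h12]
      linarith
    have h8 : (c₀ / k * (M : ℝ) ^ n) * N ≤ ((Q N).card : ℝ) * N := by
      have h9 : (M : ℝ) ^ n * (c₀ / k * N) = (c₀ / k * (M : ℝ) ^ n) * N := by ring
      rw [h9] at h6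
      have h10 : ((Q N).card : ℝ) * N =
          ((P.filter fun p => σ * X N p ≤ -(c₀ / k * N)).card : ℝ) * N := rfl
      rw [h10]
      linarith
    exact le_of_mul_le_mul_right h8 (by linarith)
  -- pigeonhole
  have hfr2 : ∃ᶠ N : ℕ in atTop, c₀ / k * (M : ℝ) ^ n ≤ ((Q N).card : ℝ) :=
    (hfr.and_eventually (eventually_ge_atTop 1)).mono fun N hN => key N hN.2 hN.1
  have hfr3 : ∃ A ∈ P.powerset, ∃ᶠ N : ℕ in atTop, c₀ / k * (M : ℝ) ^ n ≤ (A.card : ℝ) ∧ Q N = A := by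
    by_contra hcon
    push Not at hcon
    have h1 : ∀ᶠ N : ℕ in atTop, ∀ A ∈ P.powerset,
        ¬ (c₀ / k * (M : ℝ) ^ n ≤ (A.card : ℝ) ∧ Q N = A) := by
      rw [Filter.eventually_all_finset]
      intro A hA
      exact (hcon A hA).mono fun N hN hh => hN hh.1 hh.2
    obtain ⟨N, hN1, hN2⟩ := (hfr2.and_eventually h1).exists
    exact hN2 (Q N) (mem_powerset.2 (filter_subset _ _)) ⟨hN1, rfl⟩
  obtain ⟨A, -, hA⟩ := hfr3
  obtain ⟨N₀, hN₀, -⟩ := hA.exists
  refine hN₀.trans ?_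
  refine Nat.cast_le.2 (card_le_card ?_)
  intro p hp
  obtain ⟨N₁, -, hN₁⟩ := hA.exists
  rw [mem_filter]
  refine ⟨?_, ?_⟩
  · rw [← hN₁] at hp
    exact (mem_filter.1 hp).1
  · refine hA.mono fun N hN => ?_
    rw [← hN.2] at hp
    exact (mem_filter.1 hp).2

end Pool.Agent.L7h4.OC
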