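import Pool.Agent.L7h4.OC.Gs

/-!
# Project OC (helper4): the character sums over a digit interval (GA, GB)
-/

set_option autoImplicit false

open Finset Filter Topology

namespace Pool.Agent.L7h4.OC

theorem tel (f : ℤ → ℂ) {a b : ℤ} (h : a ≤ b) : ∑ z ∈ Ico a b, (f (z + 1) - f z) = f b - f a := by
  induction b, h using Int.leInduction with
  | base => simp
  | succ b hab ih =>
    have e : Ico a (b + 1) = insert b (Ico a b) := by
      ext z
      simp only [mem_Ico, mem_insert]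
      omega
    rw [e, sum_insert (by simp), ih]
    ring

theorem ex_neg (t : ℝ) : ex (-t) * ex t = 1 := by
  rw [← ex_add, neg_add_cancel, ex_zero]

/-- geometric sum -/
theorem gs_mul {b w M : ℕ} (hb : 2 ≤ b) (hw : w < b) (hM : 1 ≤ M) (t : ℤ) (u : ℝ) :
    (ex (-((t : ℝ) / M)) - 1) * gs b w M t u =
      ex (-((t : ℝ) * ⌈(M : ℝ) * (((w : ℝ) + 1) / b - u)⌉ / M)) -
        ex (-((t : ℝ) * ⌈(M : ℝ) * ((w : ℝ) / b - u)⌉ / M)) := by
  rw [gs_eq hb hw hM, mul_sum]
  rw [← tel (fun z : ℤ => ex (-((t : ℝ) * z / M))) (len_bounds b w M hb u).1]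
  refine sum_congr rfl fun z _ => ?_
  have e : ex (-((t : ℝ) * ((z + 1 : ℤ) : ℝ) / M)) = ex (-((t : ℝ) / M)) * ex (-((t : ℝ) * z / M)) := by
    rw [← ex_add]
    congr 1
    push_cast
    ring
  rw [e]
  ring

theorem ex_eq (s : ℝ) : ex s = Complex.exp (Complex.I * ((2 * Real.pi * s : ℝ) : ℂ)) := by
  unfold ex
  congr 1
  push_cast
  ring

theorem norm_ex_sub_one_le (s : ℝ) : ‖ex s - 1‖ ≤ 2 * Real.pi * |s| := by
  rw [ex_eq]
  refine (Real.norm_exp_I_mul_ofReal_sub_one_le).trans ?_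
  rw [Real.norm_eq_abs, abs_mul, abs_of_pos (by positivity)]

theorem norm_ex_sub_one_sub_le (s : ℝ) :
    ‖ex s - 1 - 2 * Real.pi * Complex.I * s‖ ≤ 3 * (2 * Real.pi * s) ^ 2 := by
  set x : ℂ := Complex.I * ((2 * Real.pi * s : ℝ) : ℂ) with hx
  have e : ex s - 1 - 2 * Real.pi * Complex.I * s = Complex.exp x - 1 - x := by
    rw [ex_eq, hx]
    push_cast
    ring
  have hn : ‖x‖ = |2 * Real.pi * s| := by
    rw [hx, norm_mul, Complex.norm_I, one_mul, Complex.norm_real, Real.norm_eq_abs]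
  rw [e]
  by_cases h : ‖x‖ ≤ 1
  · refine (Complex.norm_exp_sub_one_sub_id_le h).trans ?_
    rw [hn, sq_abs]
    nlinarith [sq_nonneg (2 * Real.pi * s)]
  · push Not at h
    have h1 : ‖Complex.exp x‖ = 1 := by
      have := norm_ex s
      rw [ex_eq] at this
      exact this
    have h2 : ‖Complex.exp x - 1 - x‖ ≤ 2 + ‖x‖ := by
      refine (norm_sub_le _ _).trans ?_
      have := norm_sub_le (Complex.exp x) 1
      rw [h1, norm_one] at this
      linarith
    rw [← sq_abs (2 * Real.pi * s), ← hn]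
    nlinarith

theorem dist_ex (s t : ℝ) : ‖ex s - ex t‖ ≤ 2 * Real.pi * |s - t| := by
  have e : ex s - ex t = (ex (s - t) - 1) * ex t := by
    rw [sub_mul, ← ex_add, sub_add_cancel, one_mul]
  rw [e, norm_mul, norm_ex, mul_one]
  exact norm_ex_sub_one_le _

theorem s_GA : S_GA := by
  intro b w h hb hw hbh
  have hb0 : (0 : ℝ) < b := by
    have : (2 : ℝ) ≤ b := by exact_mod_cast hb
    linarith
  have hh : h ≠ 0 := fun h0 => hbh (by rw [h0]; exact dvd_zero _)
  have hhR : (h : ℝ) ≠ 0 := by exact_mod_cast hh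
  have hhC : (h : ℂ) ≠ 0 := by exact_mod_cast hh
  have hpi : (0 : ℝ) < Real.pi := Real.pi_pos
  have hden : (2 * Real.pi * Complex.I * h : ℂ) ≠ 0 := by
    have : (Real.pi : ℂ) ≠ 0 := by exact_mod_cast hpi.ne'
    simp [this, hh]
  refine ⟨(ex (-((h : ℝ) * ((w : ℝ) / b))) - ex (-((h : ℝ) * (((w : ℝ) + 1) / b)))) /
    (2 * Real.pi * Complex.I * h), ?_, 2 + 6 * Real.pi * |(h : ℝ)|, by positivity, ?_⟩
  · refine div_ne_zero (fun h0 => ?_) hden
    rw [sub_eq_zero] at h0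
    have h1 : ex ((h : ℝ) / b) = 1 := by
      have e : (h : ℝ) / b = -((h : ℝ) * ((w : ℝ) / b)) + (h : ℝ) * (((w : ℝ) + 1) / b) := by
        field_simp
        ring
      rw [e, ex_add, h0, ex_neg]
    obtain ⟨m, hm⟩ := ex_eq_one h1
    apply hbh
    refine ⟨m, ?_⟩
    rw [div_eq_iff hb0.ne'] at hm
    have : (h : ℝ) = ((b * m : ℤ) : ℝ) := by rw [hm]; push_cast; ring
    exact_mod_cast this
  · intro M hM u
    have hMR : (0 : ℝ) < M := by exact_mod_cast hM
    have hMC : (M : ℂ) ≠ 0 := by exact_mod_cast (by omega : M ≠ 0)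
    have hg := gs_mul hb hw hM h u
    have hgn := norm_gs_le b w M h u
    set G := gs b w M h u with hG
    set zA := ⌈(M : ℝ) * ((w : ℝ) / b - u)⌉ with hzA
    set zB := ⌈(M : ℝ) * (((w : ℝ) + 1) / b - u)⌉ with hzB
    have hA1 := Int.le_ceil ((M : ℝ) * ((w : ℝ) / b - u))
    have hA2 := Int.ceil_lt_add_one ((M : ℝ) * ((w : ℝ) / b - u))
    have hB1 := Int.le_ceil ((M : ℝ) * (((w : ℝ) + 1) / b - u))
    have hB2 := Int.ceil_lt_add_one ((M : ℝ) * (((w : ℝ) + 1) / b - u))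
    rw [← hzA] at hA1 hA2
    rw [← hzB] at hB1 hB2
    -- the endpoints
    have hdA : ‖ex (-((h : ℝ) * zA / M)) - ex (-((h : ℝ) * ((w : ℝ) / b - u)))‖ ≤
        2 * Real.pi * |(h : ℝ)| / M := by
      refine (dist_ex _ _).trans ?_
      have e : -((h : ℝ) * zA / M) - -((h : ℝ) * ((w : ℝ) / b - u)) =
          (h : ℝ) * ((M : ℝ) * ((w : ℝ) / b - u) - zA) / M := by
        field_simp
        ring
      rw [e, abs_div, abs_mul, abs_of_pos hMR, ← mul_div_assoc]
      apply div_le_div_of_nonneg_right _ hMR.le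
      have h1 : |(M : ℝ) * ((w : ℝ) / b - u) - zA| ≤ 1 := by
        rw [abs_le]
        constructor <;> linarith
      calc 2 * Real.pi * (|(h : ℝ)| * |(M : ℝ) * ((w : ℝ) / b - u) - zA|) ≤
          2 * Real.pi * (|(h : ℝ)| * 1) := by gcongr
        _ = 2 * Real.pi * |(h : ℝ)| := by ring
    have hdB : ‖ex (-((h : ℝ) * zB / M)) - ex (-((h : ℝ) * (((w : ℝ) + 1) / b - u)))‖ ≤
        2 * Real.pi * |(h : ℝ)| / M := by
      refine (dist_ex _ _).trans ?_
      have e : -((h : ℝ) * zB / M) - -((h : ℝ) * (((w : ℝ) + 1) / b - u)) =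
          (h : ℝ) * ((M : ℝ) * (((w : ℝ) + 1) / b - u) - zB) / M := by
        field_simp
        ring
      rw [e, abs_div, abs_mul, abs_of_pos hMR, ← mul_div_assoc]
      apply div_le_div_of_nonneg_right _ hMR.le
      have h1 : |(M : ℝ) * (((w : ℝ) + 1) / b - u) - zB| ≤ 1 := by
        rw [abs_le]
        constructor <;> linarith
      calc 2 * Real.pi * (|(h : ℝ)| * |(M : ℝ) * (((w : ℝ) + 1) / b - u) - zB|) ≤
          2 * Real.pi * (|(h : ℝ)| * 1) := by gcongr
        _ = 2 * Real.pi * |(h : ℝ)| := by ring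
    -- the factor
    have hD := norm_ex_sub_one_sub_le (-((h : ℝ) / M))
    set D := ex (-((h : ℝ) / M)) - 1 with hDdef
    have hDG : ‖(D - 2 * Real.pi * Complex.I * ((-((h : ℝ) / M) : ℝ) : ℂ)) * G‖ ≤
        12 * Real.pi ^ 2 * |(h : ℝ)| ^ 2 / M := by
      rw [norm_mul]
      calc ‖D - 2 * Real.pi * Complex.I * ((-((h : ℝ) / M) : ℝ) : ℂ)‖ * ‖G‖ ≤
          (3 * (2 * Real.pi * (-((h : ℝ) / M))) ^ 2) * M :=
            mul_le_mul hD hgn (norm_nonneg _) (by positivity)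
        _ = 12 * Real.pi ^ 2 * |(h : ℝ)| ^ 2 / M := by
            rw [sq_abs]
            field_simp
            ring
    -- the identity
    have eA : ex (-((h : ℝ) * ((w : ℝ) / b - u))) = ex (-((h : ℝ) * ((w : ℝ) / b))) * ex ((h : ℝ) * u) := by
      rw [← ex_add]
      congr 1
      ring
    have eB : ex (-((h : ℝ) * (((w : ℝ) + 1) / b - u))) =
        ex (-((h : ℝ) * (((w : ℝ) + 1) / b))) * ex ((h : ℝ) * u) := by
      rw [← ex_add]
      congr 1
      ring
    have key : G - (M : ℂ) * ((ex (-((h : ℝ) * ((w : ℝ) / b))) - ex (-((h : ℝ) * (((w : ℝ) + 1) / b)))) /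
        (2 * Real.pi * Complex.I * h)) * ex ((h : ℝ) * u) =
        ((D - 2 * Real.pi * Complex.I * ((-((h : ℝ) / M) : ℝ) : ℂ)) * G -
          (ex (-((h : ℝ) * zB / M)) - ex (-((h : ℝ) * (((w : ℝ) + 1) / b - u)))) +
          (ex (-((h : ℝ) * zA / M)) - ex (-((h : ℝ) * ((w : ℝ) / b - u))))) *
          ((M : ℂ) / (2 * Real.pi * Complex.I * h)) := by
      rw [eA, eB, sub_mul D, hg]
      push_cast
      field_simp
      ring
    rw [key, norm_mul]
    have hn2 : ‖(M : ℂ) / (2 * Real.pi * Complex.I * h)‖ = M / (2 * Real.pi * |(h : ℝ)|) := by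
      rw [norm_div, Complex.norm_natCast, norm_mul, norm_mul, norm_mul, Complex.norm_I,
        Complex.norm_real, Real.norm_eq_abs, abs_of_pos hpi, Complex.norm_intCast]
      simp
    rw [hn2]
    have hhpos : 0 < |(h : ℝ)| := abs_pos.2 hhR
    have hsum : ‖(D - 2 * Real.pi * Complex.I * ((-((h : ℝ) / M) : ℝ) : ℂ)) * G -
          (ex (-((h : ℝ) * zB / M)) - ex (-((h : ℝ) * (((w : ℝ) + 1) / b - u)))) +
          (ex (-((h : ℝ) * zA / M)) - ex (-((h : ℝ) * ((w : ℝ) / b - u))))‖ ≤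
        12 * Real.pi ^ 2 * |(h : ℝ)| ^ 2 / M + 2 * Real.pi * |(h : ℝ)| / M +
          2 * Real.pi * |(h : ℝ)| / M := by
      refine (norm_add_le _ _).trans (add_le_add ?_ hdA)
      exact (norm_sub_le _ _).trans (add_le_add hDG hdB)
    calc _ ≤ (12 * Real.pi ^ 2 * |(h : ℝ)| ^ 2 / M + 2 * Real.pi * |(h : ℝ)| / M +
          2 * Real.pi * |(h : ℝ)| / M) * (M / (2 * Real.pi * |(h : ℝ)|)) :=
          mul_le_mul_of_nonneg_right hsum (by positivity)
      _ = 2 + 6 * Real.pi * |(h : ℝ)| := by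
          field_simp
          ring

/-- distance to the integers -/
theorem four_mul_le (s d : ℝ) (h : ∀ m : ℤ, d ≤ |s - m|) : 4 * d ≤ ‖ex s - 1‖ := by
  have h1 := h (round s)
  have h2 : |s - round s| ≤ 1 / 2 := abs_sub_round s
  set r := s - round s with hr
  have h3 : ex s = ex r := ex_congr (round s) (by rw [hr]; ring)
  rw [h3, ex_eq, Complex.norm_exp_I_mul_ofReal_sub_one]
  have h4 : 2 * Real.pi * r / 2 = Real.pi * r := by ring
  rw [h4, Real.norm_eq_abs, abs_mul, abs_of_pos (by norm_num : (0 : ℝ) < 2)]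
  have h5 : |Real.pi * r| ≤ Real.pi / 2 := by
    rw [abs_mul, abs_of_pos Real.pi_pos]
    nlinarith [Real.pi_pos]
  have h6 := Real.mul_abs_le_abs_sin h5
  rw [abs_mul, abs_of_pos Real.pi_pos] at h6
  have h7 : 2 / Real.pi * (Real.pi * |r|) = 2 * |r| := by
    field_simp
  rw [h7] at h6
  linarith

theorem s_GB : S_GB := by
  intro b w h hb hw hbh
  have hbR : (2 : ℝ) ≤ b := by exact_mod_cast hb
  have hb0 : (0 : ℝ) < b := by linarith
  have hh : h ≠ 0 := fun h0 => hbh (by rw [h0]; exact dvd_zero _)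
  have hhR : (h : ℝ) ≠ 0 := by exact_mod_cast hh
  have hh1 : (1 : ℝ) ≤ |(h : ℝ)| := by exact_mod_cast Int.one_le_abs hh
  refine ⟨2 + 2 * |(h : ℝ)|, by positivity, fun k a ha hak u => ?_⟩
  set M : ℕ := b ^ k - 1 with hMdef
  have hbk : 2 ≤ b ^ k := by
    calc 2 ≤ b := hb
      _ = b ^ 1 := (pow_one b).symm
      _ ≤ b ^ k := Nat.pow_le_pow_right (by omega) (by omega)
  have hM : 1 ≤ M := by omega
  have hMR : (0 : ℝ) < M := by exact_mod_cast hM
  have hMe : (M : ℝ) = (b : ℝ) ^ k - 1 := by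
    rw [hMdef, Nat.cast_sub (by omega)]
    push_cast
    ring
  have hMZ : (M : ℤ) = (b : ℤ) ^ k - 1 := by
    rw [hMdef, Nat.cast_sub (by omega)]
    push_cast
    ring
  set t : ℤ := (b : ℤ) ^ a * h with ht
  have hgn := norm_gs_le b w M t u
  have hgm := gs_mul hb hw hM t u
  obtain ⟨hlen1, hlen2⟩ := len_bounds b w M hb u
  set G := gs b w M t u with hG
  set zA := ⌈(M : ℝ) * ((w : ℝ) / b - u)⌉ with hzA
  set zB := ⌈(M : ℝ) * (((w : ℝ) + 1) / b - u)⌉ with hzB
  -- the length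
  have hL : zB - zA = (b : ℤ) ^ (k - 1) ∨ zB - zA = (b : ℤ) ^ (k - 1) - 1 := by
    have e1 : (M : ℝ) / b = (b : ℝ) ^ (k - 1) - 1 / b := by
      rw [hMe, sub_div]
      congr 1
      rw [div_eq_iff hb0.ne', ← pow_succ]
      congr 1
      omega
    rw [e1, abs_lt] at hlen2
    have e2 : 0 < 1 / (b : ℝ) := by positivity
    have e3 : 1 / (b : ℝ) < 1 := by
      rw [div_lt_one hb0]
      linarith
    have h1 : ((zB - zA : ℤ) : ℝ) < ((((b : ℤ) ^ (k - 1) + 1 : ℤ)) : ℝ) := by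
      push_cast
      push_cast at hlen2
      linarith [hlen2.2]
    have h2 : ((((b : ℤ) ^ (k - 1) - 2 : ℤ)) : ℝ) < ((zB - zA : ℤ) : ℝ) := by
      push_cast
      push_cast at hlen2
      linarith [hlen2.1]
    have h3 : zB - zA < (b : ℤ) ^ (k - 1) + 1 := by exact_mod_cast h1
    have h4 : (b : ℤ) ^ (k - 1) - 2 < zB - zA := by exact_mod_cast h2
    omega
  have hba : (b : ℤ) ^ a = (b : ℤ) ^ (a - 1) * b := by
    rw [← pow_succ]
    congr 1
    omega
  have hbkk : (b : ℤ) ^ k = (b : ℤ) ^ (k - 1) * b := by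
    rw [← pow_succ]
    congr 1
    omega
  -- the numerator
  have hnum : ‖ex (-((t : ℝ) * zB / M)) - ex (-((t : ℝ) * zA / M))‖ ≤
      2 * Real.pi * ((b : ℝ) ^ a * |(h : ℝ)| / M) := by
    have e0 : ex (-((t : ℝ) * zB / M)) - ex (-((t : ℝ) * zA / M)) =
        (ex (-((t : ℝ) * ((zB - zA : ℤ) : ℝ) / M)) - 1) * ex (-((t : ℝ) * zA / M)) := by
      rw [sub_mul, ← ex_add, one_mul]
      congr 2
      push_cast
      ring
    rw [e0, norm_mul, norm_ex, mul_one]
    have hbaR : (1 : ℝ) ≤ (b : ℝ) ^ (a - 1) := one_le_pow₀ (by linarith)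
    have hbaR2 : (b : ℝ) ^ a = (b : ℝ) ^ (a - 1) * b := by exact_mod_cast hba
    rcases hL with hL | hL
    · have e1 : ex (-((t : ℝ) * ((zB - zA : ℤ) : ℝ) / M)) = ex (-((b : ℝ) ^ (a - 1) * h / M)) := by
        refine ex_congr (-((b : ℤ) ^ (a - 1) * h)) ?_
        have e2 : (t : ℝ) * ((zB - zA : ℤ) : ℝ) = (b : ℝ) ^ (a - 1) * h * (M + 1) := by
          have e3 : t * (zB - zA) = (b : ℤ) ^ (a - 1) * h * (M + 1) := by
            rw [hL, hMZ, ht, hba, hbkk]
            ring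
          exact_mod_cast e3
        rw [e2]
        push_cast
        field_simp
        ring
      rw [e1]
      refine (norm_ex_sub_one_le _).trans ?_
      rw [abs_neg, abs_div, abs_mul, abs_of_pos hMR, abs_of_pos (by positivity : (0:ℝ) < (b : ℝ) ^ (a - 1))]
      have h3 : (b : ℝ) ^ (a - 1) ≤ (b : ℝ) ^ a := pow_le_pow_right₀ (by linarith) (by omega)
      gcongr
    · have e1 : ex (-((t : ℝ) * ((zB - zA : ℤ) : ℝ) / M)) =
          ex ((b : ℝ) ^ (a - 1) * (b - 1) * h / M) := by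
        refine ex_congr (-((b : ℤ) ^ (a - 1) * h)) ?_
        have e2 : (t : ℝ) * ((zB - zA : ℤ) : ℝ) = (b : ℝ) ^ (a - 1) * h * (M + 1) -
            (b : ℝ) ^ (a - 1) * b * h := by
          have e3 : t * (zB - zA) = (b : ℤ) ^ (a - 1) * h * (M + 1) - (b : ℤ) ^ (a - 1) * b * h := by
            rw [hL, hMZ, ht, hba, hbkk]
            ring
          exact_mod_cast e3
        rw [e2]
        push_cast
        field_simp
        ring
      rw [e1]
      refine (norm_ex_sub_one_le _).trans ?_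
      rw [abs_div, abs_mul, abs_of_pos hMR, abs_of_nonneg (by
        have : (0 : ℝ) ≤ b - 1 := by linarith
        positivity : (0:ℝ) ≤ (b : ℝ) ^ (a - 1) * (b - 1))]
      have h3 : (b : ℝ) ^ (a - 1) * (b - 1) ≤ (b : ℝ) ^ a := by
        rw [hbaR2]
        nlinarith
      gcongr
  have hprod : ‖ex (-((t : ℝ) / M)) - 1‖ * ‖G‖ ≤ 2 * Real.pi * ((b : ℝ) ^ a * |(h : ℝ)| / M) := by
    rw [← norm_mul, hgm]
    exact hnum
  have hbapos : (0 : ℝ) < (b : ℝ) ^ a := by positivity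
  have htabs : |(t : ℝ)| = (b : ℝ) ^ a * |(h : ℝ)| := by
    rw [ht]
    push_cast
    rw [abs_mul, abs_of_pos hbapos]
  have hpi4 : Real.pi ≤ 4 := Real.pi_le_four
  by_cases hcase : 2 * |t| ≤ (M : ℤ)
  · -- the frequency is small
    have hcR : 2 * |(t : ℝ)| ≤ M := by exact_mod_cast hcase
    have h1 : 4 * (|(t : ℝ)| / M) ≤ ‖ex (-((t : ℝ) / M)) - 1‖ := by
      apply four_mul_le
      intro m
      by_cases hm : m = 0
      · rw [hm]
        simp [abs_div, abs_of_pos hMR]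
      · have h2 : (1 : ℝ) ≤ |(m : ℝ)| := by exact_mod_cast Int.one_le_abs hm
        have h3 : |(t : ℝ)| / M ≤ 1 / 2 := by
          rw [div_le_iff₀ hMR]
          linarith
        have h4 := abs_sub_abs_le_abs_sub (m : ℝ) (-((t : ℝ) / M))
        rw [abs_neg, abs_div, abs_of_pos hMR, abs_sub_comm] at h4
        linarith
    have h2 : 4 * (|(t : ℝ)| / M) * ‖G‖ ≤ 2 * Real.pi * (|(t : ℝ)| / M) := by
      rw [htabs] at h1 ⊢
      exact (mul_le_mul_of_nonneg_right h1 (norm_nonneg _)).trans hprod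
    have htpos : 0 < |(t : ℝ)| / M := by
      rw [htabs]
      positivity
    have h3 : 4 * ‖G‖ ≤ 2 * Real.pi := by
      by_contra hcon
      push Not at hcon
      nlinarith
    linarith [abs_nonneg (h : ℝ)]
  · push Not at hcase
    by_cases hsmall : (M : ℝ) < 2 * |(h : ℝ)|
    · linarith
    push Not at hsmall
    -- the frequency is large
    have hcR : (M : ℝ) < 2 * |(t : ℝ)| := by exact_mod_cast hcase
    have hbe : (b : ℝ) ^ (k - a) ≤ 2 * |(h : ℝ)| := by
      have h1 : (M : ℤ) + 1 ≤ 2 * |t| := hcase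
      have h2 : (b : ℝ) ^ k ≤ 2 * |(t : ℝ)| := by
        have h3 : (b : ℤ) ^ k ≤ 2 * |t| := by rw [hMZ] at h1; linarith
        exact_mod_cast h3
      rw [htabs] at h2
      have h3 : (b : ℝ) ^ k = (b : ℝ) ^ a * (b : ℝ) ^ (k - a) := by
        rw [← pow_add]
        congr 1
        omega
      rw [h3] at h2
      have h4 : (b : ℝ) ^ a * (b : ℝ) ^ (k - a) ≤ (b : ℝ) ^ a * (2 * |(h : ℝ)|) := by linarith
      exact le_of_mul_le_mul_left h4 hbapos
    have hbepos : (0 : ℝ) < (b : ℝ) ^ (k - a) := by positivity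
    have h1 : 4 * (1 / (4 * |(h : ℝ)|)) ≤ ‖ex (-((t : ℝ) / M)) - 1‖ := by
      apply four_mul_le
      intro m
      -- `t / M = (h / b ^ (k - a)) (1 + 1 / M)`
      have e1 : (t : ℝ) / M = (h : ℝ) / (b : ℝ) ^ (k - a) + (h : ℝ) / ((b : ℝ) ^ (k - a) * M) := by
        have h3 : (b : ℝ) ^ k = (b : ℝ) ^ a * (b : ℝ) ^ (k - a) := by
          rw [← pow_add]
          congr 1
          omega
        have h4 : (M : ℝ) + 1 = (b : ℝ) ^ a * (b : ℝ) ^ (k - a) := by rw [hMe, h3]; ring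
        rw [ht]
        push_cast
        field_simp
        linear_combination (-(1 : ℝ)) * h4
      have h2 : 1 / (b : ℝ) ^ (k - a) ≤ |(h : ℝ) / (b : ℝ) ^ (k - a) + m| := by
        have h3 : (h : ℝ) / (b : ℝ) ^ (k - a) + m = ((h + m * (b : ℤ) ^ (k - a) : ℤ) : ℝ) /
            (b : ℝ) ^ (k - a) := by
          push_cast
          field_simp
        rw [h3, abs_div, abs_of_pos hbepos]
        apply div_le_div_of_nonneg_right _ hbepos.le
        have h4 : h + m * (b : ℤ) ^ (k - a) ≠ 0 := by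
          intro h0
          apply hbh
          have h5 : (b : ℤ) ∣ m * (b : ℤ) ^ (k - a) := Dvd.dvd.mul_left (dvd_pow_self _ (by omega)) m
          exact (Int.dvd_add_left h5).1 (by rw [h0]; exact dvd_zero _)
        exact_mod_cast Int.one_le_abs h4
      have h3 : |(h : ℝ) / ((b : ℝ) ^ (k - a) * M)| ≤ 1 / (2 * (b : ℝ) ^ (k - a)) := by
        rw [abs_div, abs_of_pos (by positivity : (0 : ℝ) < (b : ℝ) ^ (k - a) * M),
          div_le_div_iff₀ (by positivity) (by positivity)]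
        nlinarith
      have h4 : 1 / (2 * (b : ℝ) ^ (k - a)) ≤ |(-((t : ℝ) / M)) - m| := by
        rw [e1]
        have h5 := abs_sub_abs_le_abs_sub ((h : ℝ) / (b : ℝ) ^ (k - a) + m)
          (-((h : ℝ) / ((b : ℝ) ^ (k - a) * M)))
        rw [abs_neg] at h5
        have h6 : -((h : ℝ) / (b : ℝ) ^ (k - a) + (h : ℝ) / ((b : ℝ) ^ (k - a) * M)) - m =
            -((h : ℝ) / (b : ℝ) ^ (k - a) + m - -((h : ℝ) / ((b : ℝ) ^ (k - a) * M))) := by ring
        rw [h6, abs_neg]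
        have h7 : 1 / (b : ℝ) ^ (k - a) = 1 / (2 * (b : ℝ) ^ (k - a)) + 1 / (2 * (b : ℝ) ^ (k - a)) := by
          field_simp
          ring
        linarith
      refine le_trans ?_ h4
      apply one_div_le_one_div_of_le (by positivity)
      linarith
    have h2 : ‖ex (-((t : ℝ) * zB / M)) - ex (-((t : ℝ) * zA / M))‖ ≤ 2 := by
      refine (norm_sub_le _ _).trans ?_
      rw [norm_ex, norm_ex]
      norm_num
    have h3 : ‖ex (-((t : ℝ) / M)) - 1‖ * ‖G‖ ≤ 2 := by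
      rw [← norm_mul, hgm]
      exact h2
    have h4 : 4 * (1 / (4 * |(h : ℝ)|)) * ‖G‖ ≤ 2 :=
      (mul_le_mul_of_nonneg_right h1 (norm_nonneg _)).trans h3
    have h5 : 4 * (1 / (4 * |(h : ℝ)|)) * ‖G‖ = ‖G‖ / |(h : ℝ)| := by
      field_simp
    rw [h5, div_le_iff₀ (by linarith)] at h4
    linarith

end Pool.Agent.L7h4.OC
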