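import Pool.Agent.L7h4.OC.Ex

/-!
# Project OC (helper4): the character sums over a digit interval (GZ)
-/

set_option autoImplicit false

open Finset Filter Topology

namespace Pool.Agent.L7h4.OC

theorem dg_add_int (b w : ℕ) (u : ℝ) (m : ℤ) : Dg b w (u + m) ↔ Dg b w u := by
  unfold Dg
  rw [Int.fract_add_intCast]

theorem dg_congr {b w : ℕ} {u v : ℝ} (m : ℤ) (h : u = v + m) : Dg b w u ↔ Dg b w v := by
  rw [h, dg_add_int]

theorem ex_congr {s t : ℝ} (m : ℤ) (h : s = t + m) : ex s = ex t := by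
  rw [h, ex_add, ex_int, mul_one]

theorem norm_gs_le (b w M : ℕ) (t : ℤ) (u : ℝ) : ‖gs b w M t u‖ ≤ M := by
  classical
  unfold gs
  refine (norm_sum_le _ _).trans ?_
  rw [sum_congr rfl fun q _ => norm_ex _, sum_const, nsmul_eq_mul, mul_one]
  exact_mod_cast (card_filter_le _ _).trans (by rw [card_range])

/-- the sum over consecutive integers -/
theorem gs_eq {b w M : ℕ} (hb : 2 ≤ b) (hw : w < b) (hM : 1 ≤ M) (t : ℤ) (u : ℝ) :
    gs b w M t u = ∑ z ∈ Ico ⌈(M : ℝ) * ((w : ℝ) / b - u)⌉ ⌈(M : ℝ) * (((w : ℝ) + 1) / b - u)⌉,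
      ex (-((t : ℝ) * z / M)) := by
  classical
  have hMR : (0 : ℝ) < M := by exact_mod_cast hM
  have hMZ : (0 : ℤ) < M := by exact_mod_cast hM
  have hbR : (2 : ℝ) ≤ b := by exact_mod_cast hb
  have hb0 : (0 : ℝ) < b := by linarith
  have hmem : ∀ z : ℤ, z ∈ Ico ⌈(M : ℝ) * ((w : ℝ) / b - u)⌉ ⌈(M : ℝ) * (((w : ℝ) + 1) / b - u)⌉ ↔
      ((w : ℝ) / b ≤ u + z / M ∧ u + z / M < ((w : ℝ) + 1) / b) := by
    intro z
    rw [mem_Ico, Int.ceil_le, Int.lt_ceil]
    constructor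
    · rintro ⟨h1, h2⟩
      constructor
      · have h3 : (w : ℝ) / b - u ≤ z / M := by
          rw [le_div_iff₀ hMR]
          linarith
        linarith
      · have h3 : (z : ℝ) / M < ((w : ℝ) + 1) / b - u := by
          rw [div_lt_iff₀ hMR]
          linarith
        linarith
    · rintro ⟨h1, h2⟩
      constructor
      · have h3 : (w : ℝ) / b - u ≤ z / M := by linarith
        rw [le_div_iff₀ hMR] at h3
        linarith
      · have h3 : (z : ℝ) / M < ((w : ℝ) + 1) / b - u := by linarith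
        rw [div_lt_iff₀ hMR] at h3
        linarith
  have hw1 : ((w : ℝ) + 1) / b ≤ 1 := by
    rw [div_le_one hb0]
    exact_mod_cast hw
  have hw0 : 0 ≤ (w : ℝ) / b := by positivity
  unfold gs
  symm
  refine sum_bij (fun z _ => (z % (M : ℤ)).toNat) ?_ ?_ ?_ ?_
  · intro z hz
    obtain ⟨h1, h2⟩ := (hmem z).1 hz
    have hnn := Int.emod_nonneg z hMZ.ne'
    have hlt := Int.emod_lt_of_pos z hMZ
    have hcast : (((z % (M : ℤ)).toNat : ℕ) : ℤ) = z % (M : ℤ) := Int.toNat_of_nonneg hnn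
    rw [mem_filter, mem_range]
    refine ⟨by omega, ?_⟩
    have e : u + (((z % (M : ℤ)).toNat : ℕ) : ℝ) / M = (u + z / M) + ((-(z / (M : ℤ)) : ℤ) : ℝ) := by
      have h3 : (((z % (M : ℤ)).toNat : ℕ) : ℝ) = ((z % (M : ℤ) : ℤ) : ℝ) := by
        exact_mod_cast hcast
      have h4 : (z : ℝ) = M * ((z / (M : ℤ) : ℤ) : ℝ) + ((z % (M : ℤ) : ℤ) : ℝ) := by
        exact_mod_cast (Int.mul_ediv_add_emod z M).symm
      rw [h3]
      push_cast
      rw [show u + (z : ℝ) / M + -((z / (M : ℤ) : ℤ) : ℝ) =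
        u + ((z : ℝ) - M * ((z / (M : ℤ) : ℤ) : ℝ)) / M by field_simp; ring]
      rw [show (z : ℝ) - M * ((z / (M : ℤ) : ℤ) : ℝ) = ((z % (M : ℤ) : ℤ) : ℝ) by linarith]
    rw [dg_congr _ e]
    unfold Dg
    rw [Int.fract_eq_self.2 ⟨by linarith, by linarith⟩]
    exact ⟨h1, h2⟩
  · intro z hz z' hz' heq
    obtain ⟨h1, h2⟩ := (hmem z).1 hz
    obtain ⟨h3, h4⟩ := (hmem z').1 hz'
    have hnn := Int.emod_nonneg z hMZ.ne'
    have hnn' := Int.emod_nonneg z' hMZ.ne'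
    have heq2 : z % (M : ℤ) = z' % (M : ℤ) := by
      have := congrArg (fun n : ℕ => (n : ℤ)) heq
      simp only [Int.toNat_of_nonneg hnn, Int.toNat_of_nonneg hnn'] at this
      exact this
    have hd : (M : ℤ) ∣ z - z' := Int.ModEq.dvd heq2.symm
    obtain ⟨m, hm⟩ := hd
    have hm0 : m = 0 := by
      by_contra hne
      have h5 : (1 : ℝ) ≤ |(m : ℝ)| := by exact_mod_cast Int.one_le_abs hne
      have h6 : (z : ℝ) / M - z' / M = m := by
        have : (z : ℝ) - z' = M * m := by exact_mod_cast hm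
        rw [← sub_div, this]
        field_simp
      have h7 : |(m : ℝ)| < 1 := by
        rw [← h6, abs_lt]
        constructor <;> linarith
      linarith
    rw [hm0, mul_zero] at hm
    linarith
  · intro q hq
    rw [mem_filter, mem_range] at hq
    obtain ⟨hqM, h1, h2⟩ := hq
    refine ⟨(q : ℤ) - ⌊u + (q : ℝ) / M⌋ * M, ?_, ?_⟩
    · rw [hmem]
      have e : u + (((q : ℤ) - ⌊u + (q : ℝ) / M⌋ * M : ℤ) : ℝ) / M = Int.fract (u + (q : ℝ) / M) := by
        rw [Int.fract]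
        push_cast
        field_simp
        ring
      rw [e]
      exact ⟨h1, h2⟩
    · have h3 : ((q : ℤ) - ⌊u + (q : ℝ) / M⌋ * M) % (M : ℤ) = (q : ℤ) := by
        rw [Int.sub_mul_emod_self_right]
        exact Int.emod_eq_of_lt (Int.natCast_nonneg _) (by exact_mod_cast hqM)
      simp only [h3, Int.toNat_natCast]
  · intro z hz
    have hnn := Int.emod_nonneg z hMZ.ne'
    have hcast : (((z % (M : ℤ)).toNat : ℕ) : ℤ) = z % (M : ℤ) := Int.toNat_of_nonneg hnn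
    have h3 : (((z % (M : ℤ)).toNat : ℕ) : ℝ) = ((z % (M : ℤ) : ℤ) : ℝ) := by
      exact_mod_cast hcast
    have h4 : (z : ℝ) = M * ((z / (M : ℤ) : ℤ) : ℝ) + ((z % (M : ℤ) : ℤ) : ℝ) := by
      exact_mod_cast (Int.mul_ediv_add_emod z M).symm
    refine ex_congr (-(t * (z / (M : ℤ)))) ?_
    rw [h3]
    push_cast
    rw [h4]
    field_simp
    ring

/-- the number of the terms -/
theorem len_bounds (b w M : ℕ) (hb : 2 ≤ b) (u : ℝ) :
    (⌈(M : ℝ) * ((w : ℝ) / b - u)⌉ ≤ ⌈(M : ℝ) * (((w : ℝ) + 1) / b - u)⌉) ∧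
    |((⌈(M : ℝ) * (((w : ℝ) + 1) / b - u)⌉ - ⌈(M : ℝ) * ((w : ℝ) / b - u)⌉ : ℤ) : ℝ) - (M : ℝ) / b| < 1
    := by
  have hbR : (2 : ℝ) ≤ b := by exact_mod_cast hb
  have hb0 : (0 : ℝ) < b := by linarith
  have hM0 : (0 : ℝ) ≤ M := Nat.cast_nonneg _
  have e : (M : ℝ) * (((w : ℝ) + 1) / b - u) = (M : ℝ) * ((w : ℝ) / b - u) + M / b := by
    field_simp
    ring
  have hMb : 0 ≤ (M : ℝ) / b := by positivity
  constructor
  · apply Int.ceil_le_ceil
    rw [e]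
    linarith
  · have h1 := Int.le_ceil ((M : ℝ) * ((w : ℝ) / b - u))
    have h2 := Int.ceil_lt_add_one ((M : ℝ) * ((w : ℝ) / b - u))
    have h3 := Int.le_ceil ((M : ℝ) * (((w : ℝ) + 1) / b - u))
    have h4 := Int.ceil_lt_add_one ((M : ℝ) * (((w : ℝ) + 1) / b - u))
    rw [abs_lt]
    push_cast
    constructor <;> linarith

theorem s_GZ : S_GZ := by
  intro b w M hb hw hM u
  rw [gs_eq hb hw hM]
  obtain ⟨h1, h2⟩ := len_bounds b w M hb u
  have e : ∀ z : ℤ, ex (-(((0 : ℤ) : ℝ) * z / M)) = 1 := by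
    intro z
    simp [ex_zero]
  simp only [e, sum_const, Int.card_Ico, nsmul_eq_mul, mul_one]
  set A := ⌈(M : ℝ) * ((w : ℝ) / b - u)⌉
  set B := ⌈(M : ℝ) * (((w : ℝ) + 1) / b - u)⌉
  have h3 : (((B - A).toNat : ℕ) : ℤ) = B - A := Int.toNat_of_nonneg (by linarith)
  have h4 : (((B - A).toNat : ℕ) : ℂ) = (((B - A : ℤ) : ℝ) : ℂ) := by
    have : (((B - A).toNat : ℕ) : ℝ) = ((B - A : ℤ) : ℝ) := by exact_mod_cast h3
    rw [← this]
    push_cast
    rfl
  rw [h4]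
  have h5 : (((B - A : ℤ) : ℝ) : ℂ) - (M : ℂ) / b = (((((B - A : ℤ) : ℝ) - (M : ℝ) / b) : ℝ) : ℂ) := by
    push_cast
    ring
  rw [h5, Complex.norm_real, Real.norm_eq_abs]
  exact h2.le

end Pool.Agent.L7h4.OC
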