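import Mathlib

/-!
# Project OC (helper4): one digit column in the translates of a tuple

Target: MP_c8ecb2_nt. Let `b ≥ 2`, `n ≥ 1` and let `w` be one fixed column of `n` digits. If a tuple
`x : Fin n → ℝ` is not jointly normal in base `b`, then for suitable exponents `o j` many of the tuples
`(b ^ (o j) x_j + p_j / (b ^ k - 1))_j`, `0 ≤ p_j < b ^ k - 1`, have a deficiency of the column `w`. So all
tuples of real algebraic numbers which are independent with `1` are normal if and only if none of them has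
a deficiency of the column `w`.

Statements of the parts.
-/

set_option autoImplicit false

open Finset Filter Topology

namespace Pool.Agent.L7h4.OC

/-- `exp (2 π i t)` -/
noncomputable def ex (t : ℝ) : ℂ := Complex.exp (2 * Real.pi * t * Complex.I)

/-- `u` lies modulo one in `[w / b, (w + 1) / b)`: the first digit of its fractional part is `w` -/
def Dg (b w : ℕ) (u : ℝ) : Prop :=
  (w : ℝ) / b ≤ Int.fract u ∧ Int.fract u < ((w : ℝ) + 1) / b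

open Classical in
/-- the character sum over the points `q` of `ℤ/M` with `u + q / M` in the digit interval -/
noncomputable def gs (b w M : ℕ) (t : ℤ) (u : ℝ) : ℂ :=
  ∑ q ∈ (range M).filter (fun q : ℕ => Dg b w (u + (q : ℝ) / M)), ex (-((t : ℝ) * q / M))

/-- GZ: the trivial character. (The `q` with `u + q / M ∈ [w / b, (w + 1) / b)` modulo one are `⌊M / b⌋` or
`⌈M / b⌉` cyclically consecutive residues.) -/
def S_GZ : Prop :=
  ∀ (b w M : ℕ), 2 ≤ b → w < b → 1 ≤ M → ∀ u : ℝ, ‖gs b w M 0 u - (M : ℂ) / b‖ ≤ 1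

/-- GB: the frequencies `t = b ^ a * h`, `1 ≤ a < k`, modulo `M = b ^ k - 1`.

Sketch. The `q` in the sum are `L = b ^ (k-1)` or `L = b ^ (k-1) - 1` cyclically consecutive residues
modulo `M` (`M / b = b ^ (k-1) - 1 / b`), so `‖gs‖ = |sin (π t L / M)| / |sin (π t / M)|` (geometric sum,
`M ∤ t`). `t L / M` is `b ^ (a-1) h / M` or `b ^ (a-1) h (1 - b) / M` modulo one, so the numerator is at
most `π b ^ a |h| / M`. If `|b ^ a h| ≤ M / 2`, the denominator is at least `2 b ^ a |h| / M` and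
`‖gs‖ ≤ π / 2`. If not: `t / M = (h / b ^ (k-a)) (1 + 1 / M)` with `b ^ (k-a) ≤ 4 |h|`, and
`h / b ^ (k-a)` is not an integer (`¬ b ∣ h`), so its distance to the integers is at least `1 / (4 |h|)`
and that of `t / M` is at least `1 / (8 |h|)` for `M ≥ 8 h ^ 2`; for smaller `M` use `‖gs‖ ≤ M`. -/
def S_GB : Prop :=
  ∀ (b w : ℕ) (h : ℤ), 2 ≤ b → w < b → ¬ (b : ℤ) ∣ h →
    ∃ C : ℝ, 0 < C ∧ ∀ (k a : ℕ), 1 ≤ a → a < k → ∀ u : ℝ,
      ‖gs b w (b ^ k - 1) ((b : ℤ) ^ a * h) u‖ ≤ C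

/-- GA: a fixed frequency `h` (Riemann sum of `v ↦ ex (- h v)` over the digit interval);
`c = ∫ v in w/b..(w+1)/b, ex (- h v)`, which is not `0` because `b` does not divide `h`. -/
def S_GA : Prop :=
  ∀ (b w : ℕ) (h : ℤ), 2 ≤ b → w < b → ¬ (b : ℤ) ∣ h →
    ∃ c : ℂ, c ≠ 0 ∧ ∃ C : ℝ, 0 < C ∧ ∀ (M : ℕ), 1 ≤ M → ∀ u : ℝ,
      ‖gs b w M h u - (M : ℂ) * c * ex ((h : ℝ) * u)‖ ≤ C

open Classical in
/-- the character sum over the tuples `p` for the translates `y + p / M` at the place `i` -/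
noncomputable def ts {n : ℕ} (b M : ℕ) (w : Fin n → ℕ) (y : Fin n → ℝ) (i : ℕ) (s : Fin n → ℤ) : ℂ :=
  ∑ p ∈ (Fintype.piFinset fun _ : Fin n => range M).filter
    (fun p : Fin n → ℕ => ∀ j, Dg b (w j) ((y j + (p j : ℝ) / M) * (b : ℝ) ^ i)),
    ex (-(∑ j, (s j : ℝ) * (p j : ℝ)) / M)

/-- AV: the averages over the translates (from GZ, GA, GB).

Sketch. `M = b ^ k - 1`. Substitute `p' = b ^ i p` modulo `M` (a bijection of the residues) in
each coordinate: `ts b M w y i (b ^ c h) = ∏ j, gs b (w j) M (b ^ a * h j) (y j * b ^ i)` with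
`a ≡ c - i` modulo `k`, `0 ≤ a < k` (`b ^ k ≡ 1` modulo `M`). `‖gs‖ ≤ M` always. If `a ≠ 0` one factor
(some `h j ≠ 0`) is at most `C`. If `a = 0` (that is `i ≡ c`): every factor is `M * A_j + O(C)` with
`A_j = c_j ex (h j y j b ^ i)` or `1 / b`; `κ = ∏ c_j` or `1 / b`. For the last line: `gs` with `t = 0`. -/
def S_AV : Prop :=
  ∀ (b n : ℕ) (w : Fin n → ℕ) (h : Fin n → ℤ), 2 ≤ b → (∀ j, w j < b) → h ≠ 0 →
    (∀ j, h j = 0 ∨ ¬ (b : ℤ) ∣ h j) →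
    ∃ κ : ℂ, κ ≠ 0 ∧ ∃ C : ℝ, 0 < C ∧ ∀ k : ℕ, 1 ≤ k → ∀ (y : Fin n → ℝ) (i : ℕ),
      (∀ c < k, i % k = c → ‖ts b (b ^ k - 1) w y i (fun j => (b : ℤ) ^ c * h j) -
        ((b ^ k - 1 : ℕ) : ℂ) ^ n * κ * ex (∑ j, (h j : ℝ) * y j * (b : ℝ) ^ i)‖ ≤
          C * ((b ^ k - 1 : ℕ) : ℝ) ^ (n - 1)) ∧
      (∀ c < k, i % k ≠ c → ‖ts b (b ^ k - 1) w y i (fun j => (b : ℤ) ^ c * h j)‖ ≤
        C * ((b ^ k - 1 : ℕ) : ℝ) ^ (n - 1)) ∧
      ‖ts b (b ^ k - 1) w y i 0 - ((b ^ k - 1 : ℕ) : ℂ) ^ n / (b : ℂ) ^ n‖ ≤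
        C * ((b ^ k - 1 : ℕ) : ℝ) ^ (n - 1)

open Classical in
/-- the number of the places `i < N` at which the digit column of `y` is `w` -/
noncomputable def cnt {n : ℕ} (b : ℕ) (w : Fin n → ℕ) (y : Fin n → ℝ) (N : ℕ) : ℕ :=
  ((range N).filter fun i : ℕ => ∀ j, Dg b (w j) (y j * (b : ℝ) ^ i)).card

open Classical in
/-- EX: many translates with a deficiency (from AV).

Sketch. `M = b ^ k - 1`, `X p = cnt b w (y + p / M) N - N / b ^ n`. For every `c < k`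
`M ^ n E|X| ≥ |∑ p, X p ex (-(b ^ c h · p) / M)| = |∑_{i<N} ts ..|` (the constant term vanishes since
`b ^ c h ≠ 0` modulo `M` for large `k`), so by AV
`E|X| ≥ |κ| |∑_{i<N, i ≡ c (k)} ex (h · y b ^ i)| - C N / M`; the mean over `c < k` gives
`E|X| ≥ |κ| η N / k - C N / M`; `|E X| ≤ C N / M`; so `E X⁻ ≥ (|κ| η / k - 2 C / M) N / 2 ≥ 2 c N / k`
for `k ≥ k₀`, `c = |κ| η / 8` (and `c ≤ 1`), and `X⁻ ≤ N` gives that at least `(c / k) M ^ n` of the `p` have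
`X p ≤ - (c / k) N`. This holds for infinitely many `N`, so one set of `p` occurs for infinitely
many `N` (pigeonhole). -/
def S_EX : Prop :=
  ∀ (b n : ℕ) (w : Fin n → ℕ) (h : Fin n → ℤ), 2 ≤ b → (∀ j, w j < b) → h ≠ 0 →
    (∀ j, h j = 0 ∨ ¬ (b : ℤ) ∣ h j) → ∀ η : ℝ, 0 < η →
    ∃ c : ℝ, 0 < c ∧ ∃ k₀ : ℕ, 1 ≤ k₀ ∧ ∀ k, k₀ ≤ k → ∀ y : Fin n → ℝ,
      (∃ᶠ N : ℕ in atTop, η * N ≤ ‖∑ i ∈ range N, ex (∑ j, (h j : ℝ) * y j * (b : ℝ) ^ i)‖) →
      c / k * ((b ^ k - 1 : ℕ) : ℝ) ^ n ≤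
        (((Fintype.piFinset fun _ : Fin n => range (b ^ k - 1)).filter fun p : Fin n → ℕ =>
          ∃ᶠ N : ℕ in atTop,
            (cnt b w (fun j => y j + (p j : ℝ) / ((b ^ k - 1 : ℕ) : ℝ)) N : ℝ) ≤
              (1 / (b : ℝ) ^ n - c / k) * N).card : ℝ)

open Classical in
/-- WB: a criterion of Weyl with finitely many frequencies, uniform in the tuple (from
`Pool.Agent.R485.TransS.weyl_box`, `Pool/Agent/R485/TransS/Box.lean`; model: `JD_of` in `Joint.lean`). -/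
def S_WB : Prop :=
  ∀ (b n : ℕ) (η : ℝ), 0 < η → ∃ (H : Finset (Fin n → ℤ)) (δ : ℝ), 0 < δ ∧ (∀ h ∈ H, h ≠ 0) ∧
    ∀ (x : Fin n → ℝ) (N : ℕ),
      (∀ h ∈ H, ‖∑ i ∈ range N, ex (∑ j, (h j : ℝ) * x j * (b : ℝ) ^ i)‖ ≤ δ * N) →
      ∀ u v : Fin n → ℝ, (∀ j, 0 ≤ u j ∧ u j < v j ∧ v j ≤ 1) →
        |(((range N).filter fun i : ℕ => ∀ j, u j ≤ Int.fract (x j * (b : ℝ) ^ i) ∧
          Int.fract (x j * (b : ℝ) ^ i) < v j).card : ℝ) - N * ∏ j, (v j - u j)| ≤ η * N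

end Pool.Agent.L7h4.OC
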