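import Pool.Agent.L7h4.OC.Stm
import Pool.Agent.R485.TransS.Box

/-!
# Project OC (helper4): the criterion of Weyl (WB)
-/

set_option autoImplicit false

open Finset Filter Topology

namespace Pool.Agent.L7h4.OC

theorem s_WB : S_WB := by
  classical
  intro b n η hη
  set ε := min η 1 with hε
  have hε0 : 0 < ε := lt_min hη one_pos
  have hεη : ε ≤ η := min_le_left _ _
  set K : ℕ := ⌈48 * n / ε⌉₊ + 1 with hKdef
  have hK : 0 < K := Nat.succ_pos _
  have hK1 : (1 : ℝ) ≤ K := by exact_mod_cast hK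
  set δ : ℝ := ε / (4 * ((2 * (K : ℝ) ^ 3 + 1) ^ n + 5 * n)) with hδdef
  have hDpos : 0 < 4 * ((2 * (K : ℝ) ^ 3 + 1) ^ n + 5 * n) := by positivity
  have hδ : 0 < δ := div_pos hε0 hDpos
  refine ⟨(Fintype.piFinset fun _ : Fin n => Icc (-((K : ℤ) ^ 3)) ((K : ℤ) ^ 3)).filter (· ≠ 0),
    δ, hδ, fun h hh => (mem_filter.1 hh).2, fun x N hx u v huv => ?_⟩
  rcases Nat.eq_zero_or_pos N with rfl | hN
  · simp
  have hNR : (0 : ℝ) < N := by exact_mod_cast hN
  have h2 := Pool.Agent.R485.TransS.weyl_box hK (range N) ⟨0, mem_range.2 hN⟩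
    (fun i l => x l * (b : ℝ) ^ i) δ hδ.le (by
      intro g hg hgK
      have hgH : g ∈ (Fintype.piFinset fun _ : Fin n =>
          Icc (-((K : ℤ) ^ 3)) ((K : ℤ) ^ 3)).filter (· ≠ 0) := by
        rw [mem_filter, Fintype.mem_piFinset]
        refine ⟨fun l => ?_, hg⟩
        rw [mem_Icc]
        exact abs_le.1 (hgK l)
      have h3 := hx g hgH
      rw [card_range]
      refine le_trans (le_of_eq ?_) h3
      congr 1
      refine sum_congr rfl fun i _ => ?_
      have h5 : ∑ l, (g l : ℝ) * (x l * (b : ℝ) ^ i) = ∑ l, (g l : ℝ) * x l * (b : ℝ) ^ i :=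
        sum_congr rfl fun l _ => by ring
      rw [h5]
      unfold Pool.Agent.Y933.KD.e ex
      congr 1
      push_cast
      ring)
    u v (fun l => (huv l).1) (fun l => (huv l).2.1.le) (fun l => (huv l).2.2)
  rw [card_range] at h2
  have h6 : (2 * (K : ℝ) ^ 3 + 1) ^ n * δ + n * (12 / K + 5 * δ) ≤ ε := by
    have e0 : δ * (4 * ((2 * (K : ℝ) ^ 3 + 1) ^ n + 5 * n)) = ε := by
      rw [hδdef, div_mul_cancel₀ _ hDpos.ne']
    have e1 : ((2 * (K : ℝ) ^ 3 + 1) ^ n + 5 * n) * δ = ε / 4 := by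
      rw [← e0]
      ring
    have e2 : (n : ℝ) * (12 / K) ≤ ε / 4 := by
      have e3 : 48 * (n : ℝ) / ε ≤ K := by
        rw [hKdef]
        push_cast
        have := Nat.le_ceil (48 * (n : ℝ) / ε)
        linarith
      rw [div_le_iff₀ hε0] at e3
      have e4 : (n : ℝ) * (12 / K) = 12 * n / K := by ring
      rw [e4, div_le_iff₀ (by linarith)]
      linarith
    have e5 : (2 * (K : ℝ) ^ 3 + 1) ^ n * δ + n * (12 / K + 5 * δ) =
        ((2 * (K : ℝ) ^ 3 + 1) ^ n + 5 * n) * δ + n * (12 / K) := by ring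
    rw [e5, e1]
    linarith
  refine h2.trans ?_
  exact mul_le_mul_of_nonneg_right (h6.trans hεη) hNR.le

end Pool.Agent.L7h4.OC
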